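import Mathlib

set_option autoImplicit false

/-!
A linear bound for the number of edges of a straight-line graph without crossings, by an
elementary injection (no Euler formula): `e ≤ 3 n`.
-/

namespace Pool.Agent.Helper65.ST

open Filter Topology

/-- points of the plane -/
abbrev Pt := ℝ × ℝ

/-- slope of a segment -/
noncomputable def slp (e : Pt × Pt) : ℝ := (e.2.2 - e.1.2) / (e.2.1 - e.1.1)

/-- height of (the line of) the segment `e` at the abscissa `x` -/
noncomputable def ht (e : Pt × Pt) (x : ℝ) : ℝ := e.1.2 + slp e * (x - e.1.1)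

lemma ht_left (e : Pt × Pt) : ht e e.1.1 = e.1.2 := by simp [ht]

lemma ht_right {e : Pt × Pt} (h : e.1.1 < e.2.1) : ht e e.2.1 = e.2.2 := by
  have : e.2.1 - e.1.1 ≠ 0 := by linarith
  unfold ht slp
  field_simp
  ring

lemma continuous_ht (e : Pt × Pt) : Continuous (ht e) := by
  unfold ht
  fun_prop

/-- sign propagation to the left end -/
lemma sign_left {g : ℝ → ℝ} (hg : Continuous g) {x₁ x₀ : ℝ} (h : x₁ < x₀) (hpos : 0 < g x₀)
    (hne : ∀ x, x₁ < x → x ≤ x₀ → g x ≠ 0) : 0 ≤ g x₁ := by
  by_contra hcon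
  push Not at hcon
  obtain ⟨x, hx, hx0⟩ := intermediate_value_Ioo h.le hg.continuousOn ⟨hcon, hpos⟩
  exact hne x hx.1 hx.2.le hx0

/-- A straight-line graph without crossings. -/
structure Plane (V : Finset Pt) (E : Finset (Pt × Pt)) : Prop where
  left : ∀ e ∈ E, e.1 ∈ V
  right : ∀ e ∈ E, e.2 ∈ V
  lt : ∀ e ∈ E, e.1.1 < e.2.1
  inj : ∀ p ∈ V, ∀ q ∈ V, p.1 = q.1 → p = q
  cross : ∀ e ∈ E, ∀ f ∈ E, e ≠ f → ∀ x, e.1.1 < x → x < e.2.1 → f.1.1 < x → x < f.2.1 →
    ht e x ≠ ht f x
  vert : ∀ p ∈ V, ∀ e ∈ E, e.1.1 < p.1 → p.1 < e.2.1 → p.2 ≠ ht e p.1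

variable {V : Finset Pt} {E : Finset (Pt × Pt)}

/-- `f` is the edge just below `e` at the common left end -/
structure Below (E : Finset (Pt × Pt)) (e f : Pt × Pt) : Prop where
  mem : f ∈ E
  left : f.1 = e.1
  lt : slp f < slp e
  max : ∀ g ∈ E, g.1 = e.1 → slp g < slp e → slp g ≤ slp f

/-- `c` is the first vertex in the wedge between `f` and `e` -/
structure First (V : Finset Pt) (e f : Pt × Pt) (c : Pt) : Prop where
  mem : c ∈ V
  gt : e.1.1 < c.1
  le₁ : c.1 ≤ e.2.1
  le₂ : c.1 ≤ f.2.1
  lo : ht f c.1 ≤ c.2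
  hi : c.2 ≤ ht e c.1
  min : ∀ p ∈ V, e.1.1 < p.1 → p.1 ≤ e.2.1 → p.1 ≤ f.2.1 → ht f p.1 ≤ p.2 → p.2 ≤ ht e p.1 →
    c.1 ≤ p.1

lemma Below.ht_lt {e f : Pt × Pt} (h : Below E e f) {x : ℝ} (hx : e.1.1 < x) : ht f x < ht e x := by
  unfold ht
  rw [h.left]
  have := mul_lt_mul_of_pos_right h.lt (sub_pos.2 hx)
  linarith

lemma exists_first (hP : Plane V E) {e f : Pt × Pt} (he : e ∈ E) (h : Below E e f) :
    ∃ c, First V e f c := by
  classical
  let S := V.filter fun p => e.1.1 < p.1 ∧ p.1 ≤ e.2.1 ∧ p.1 ≤ f.2.1 ∧ ht f p.1 ≤ p.2 ∧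
    p.2 ≤ ht e p.1
  have hne : S.Nonempty := by
    have hlt := hP.lt e he
    have hlt' := hP.lt f h.mem
    rcases le_total e.2.1 f.2.1 with hle | hle
    · refine ⟨e.2, ?_⟩
      rw [Finset.mem_filter]
      refine ⟨hP.right e he, hlt, le_rfl, hle, ?_, ?_⟩
      · rw [← ht_right hlt]
        exact (h.ht_lt hlt).le
      · rw [ht_right hlt]
    · refine ⟨f.2, ?_⟩
      rw [Finset.mem_filter]
      have hlt2 : e.1.1 < f.2.1 := by rw [← h.left]; exact hlt'
      refine ⟨hP.right f h.mem, hlt2, hle, le_rfl, ?_, ?_⟩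
      · rw [ht_right hlt']
      · rw [← ht_right hlt']
        exact (h.ht_lt hlt2).le
  obtain ⟨c, hc, hmin⟩ := S.exists_min_image (fun p => p.1) hne
  rw [Finset.mem_filter] at hc
  obtain ⟨h1, h2, h3, h4, h5, h6⟩ := hc
  refine ⟨c, h1, h2, h3, h4, h5, h6, ?_⟩
  intro p hp q1 q2 q3 q4 q5
  exact hmin p (Finset.mem_filter.2 ⟨hp, q1, q2, q3, q4, q5⟩)

/-- the wedge is free of edges to the left of its first vertex -/
lemma free (hP : Plane V E) {e f : Pt × Pt} (he : e ∈ E) (h : Below E e f) {c : Pt}
    (hc : First V e f c) {g : Pt × Pt} (hg : g ∈ E) {x : ℝ} (hx1 : e.1.1 < x) (hx2 : x < c.1)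
    (hx3 : g.1.1 < x) (hx4 : x < g.2.1) (h1 : ht f x < ht g x) (h2 : ht g x < ht e x) : False := by
  have hge : g ≠ e := by rintro rfl; exact lt_irrefl _ h2
  have hgf : g ≠ f := by rintro rfl; exact lt_irrefl _ h1
  have hfl : f.1.1 = e.1.1 := by rw [h.left]
  have key : ∀ x₁, e.1.1 ≤ x₁ → g.1.1 ≤ x₁ → x₁ < x → 0 ≤ ht e x₁ - ht g x₁ ∧
      0 ≤ ht g x₁ - ht f x₁ := by
    intro x₁ k1 k2 k3
    constructor
    · apply sign_left (g := fun z => ht e z - ht g z)
        ((continuous_ht e).sub (continuous_ht g)) k3 (by show 0 < ht e x - ht g x; linarith)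
      intro z hz1 hz2 hz
      have hz : ht e z - ht g z = 0 := hz
      apply hP.cross g hg e he hge z (by linarith) (by linarith) (by linarith)
        (by linarith [hc.le₁])
      linarith
    · apply sign_left (g := fun z => ht g z - ht f z)
        ((continuous_ht g).sub (continuous_ht f)) k3 (by show 0 < ht g x - ht f x; linarith)
      intro z hz1 hz2 hz
      have hz : ht g z - ht f z = 0 := hz
      apply hP.cross g hg f h.mem hgf z (by linarith) (by linarith) (by linarith)
        (by linarith [hc.le₂])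
      linarith
  rcases lt_trichotomy g.1.1 e.1.1 with hlt | heq | hgt
  · obtain ⟨k1, k2⟩ := key e.1.1 le_rfl hlt.le hx1
    have h3 : ht f e.1.1 = e.1.2 := by rw [← h.left]; exact ht_left f
    rw [ht_left] at k1
    rw [h3] at k2
    exact hP.vert e.1 (hP.left e he) g hg hlt (by linarith) (by linarith)
  · have hge1 : g.1 = e.1 := hP.inj _ (hP.left g hg) _ (hP.left e he) heq
    have hsl1 : slp g < slp e := by
      unfold ht at h2
      rw [hge1] at h2
      have : slp g * (x - e.1.1) < slp e * (x - e.1.1) := by linarith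
      exact lt_of_mul_lt_mul_right this (by linarith)
    have hsl2 : slp f < slp g := by
      unfold ht at h1
      rw [hge1, h.left] at h1
      have : slp f * (x - e.1.1) < slp g * (x - e.1.1) := by linarith
      exact lt_of_mul_lt_mul_right this (by linarith)
    exact absurd (h.max g hg hge1 hsl1) (not_le.2 hsl2)
  · obtain ⟨k1, k2⟩ := key g.1.1 hgt.le le_rfl hx3
    rw [ht_left] at k1 k2
    have := hc.min g.1 (hP.left g hg) hgt (by linarith [hc.le₁]) (by linarith [hc.le₂])
      (by linarith) (by linarith)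
    linarith

/-- a strict inequality between heights at `c` persists a little to the left -/
lemma exists_near {a b d : ℝ → ℝ} (ha : Continuous a) (hb : Continuous b) (hd : Continuous d)
    {c l₁ l₂ : ℝ} (h1 : a c < b c) (h2 : b c < d c) (hl₁ : l₁ < c) (hl₂ : l₂ < c) :
    ∃ x, l₁ < x ∧ l₂ < x ∧ x < c ∧ a x < b x ∧ b x < d x := by
  have e1 : ∀ᶠ x in 𝓝[<] c, a x < b x :=
    (((isOpen_lt ha hb).mem_nhds h1 : {x | a x < b x} ∈ 𝓝 c)) |> fun h => mem_nhdsWithin_of_mem_nhds h
  have e2 : ∀ᶠ x in 𝓝[<] c, b x < d x :=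
    (((isOpen_lt hb hd).mem_nhds h2 : {x | b x < d x} ∈ 𝓝 c)) |> fun h => mem_nhdsWithin_of_mem_nhds h
  have e3 : ∀ᶠ x in 𝓝[<] c, l₁ < x := mem_nhdsWithin_of_mem_nhds (Ioi_mem_nhds hl₁)
  have e4 : ∀ᶠ x in 𝓝[<] c, l₂ < x := mem_nhdsWithin_of_mem_nhds (Ioi_mem_nhds hl₂)
  have e5 : ∀ᶠ x in 𝓝[<] c, x < c := self_mem_nhdsWithin
  obtain ⟨x, hx⟩ := (e1.and (e2.and (e3.and (e4.and e5)))).exists
  exact ⟨x, hx.2.2.1, hx.2.2.2.1, hx.2.2.2.2, hx.1, hx.2.1⟩

lemma up_le (hP : Plane V E) {e f e' f' : Pt × Pt} {c : Pt} (he : e ∈ E) (he' : e' ∈ E)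
    (h' : Below E e' f') (hc : First V e f c) (hc' : First V e' f' c)
    (hne : c ≠ e.2) : ht e' c.1 ≤ ht e c.1 := by
  by_contra hlt
  push Not at hlt
  have hcx : c.1 < e.2.1 := by
    rcases hc.le₁.lt_or_eq with h1 | h1
    · exact h1
    · exact absurd (hP.inj _ hc.mem _ (hP.right e he) h1) hne
  have hcy : c.2 < ht e c.1 :=
    lt_of_le_of_ne hc.hi (hP.vert c hc.mem e he hc.gt hcx)
  obtain ⟨x, hx1, hx2, hx3, hx4, hx5⟩ := exists_near (continuous_ht f') (continuous_ht e)
    (continuous_ht e') (lt_of_le_of_lt hc'.lo hcy) hlt hc.gt hc'.gt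
  exact free hP he' h' hc' he hx2 hx3 hx1 (by linarith) hx4 hx5

lemma down_le (hP : Plane V E) {e f e' f' : Pt × Pt} {c : Pt}
    (he' : e' ∈ E) (h : Below E e f) (h' : Below E e' f') (hc : First V e f c)
    (hc' : First V e' f' c) (hce' : c = e'.2) (hne : c ≠ f.2) : ht f c.1 ≤ ht f' c.1 := by
  by_contra hlt
  push Not at hlt
  have hcx : c.1 < f.2.1 := by
    rcases hc.le₂.lt_or_eq with h1 | h1
    · exact h1
    · exact absurd (hP.inj _ hc.mem _ (hP.right f h.mem) h1) hne
  have hfl : f.1.1 < c.1 := by rw [h.left]; exact hc.gt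
  have hcy : ht f c.1 < c.2 :=
    lt_of_le_of_ne hc.lo (hP.vert c hc.mem f h.mem hfl hcx).symm
  have hcy' : ht f c.1 < ht e' c.1 := by
    rw [hce', ht_right (hP.lt e' he'), ← hce']
    exact hcy
  obtain ⟨x, hx1, hx2, hx3, hx4, hx5⟩ := exists_near (continuous_ht f') (continuous_ht f)
    (continuous_ht e') hlt hcy' hfl hc'.gt
  exact free hP he' h' hc' h.mem hx2 hx3 hx1 (by linarith) hx4 hx5

open Classical in
/-- A straight-line graph without crossings has at most three times as many edges as vertices. -/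
theorem Plane.card_le (hP : Plane V E) : E.card ≤ 3 * V.card := by
  -- edges which have an edge below them at their left end
  let A := E.filter fun e => ∃ f, Below E e f
  let B := E.filter fun e => ¬ ∃ f, Below E e f
  have hAB : A.card + B.card = E.card := Finset.card_filter_add_card_filter_not _
  have hB : B.card ≤ V.card := by
    apply Finset.card_le_card_of_injOn (fun e => e.1)
    · intro e he
      exact hP.left e (Finset.mem_filter.1 he).1
    · intro e he e' he' heq
      have heq : e.1 = e'.1 := heq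
      obtain ⟨h1, h2⟩ := Finset.mem_filter.1 he
      obtain ⟨h1', h2'⟩ := Finset.mem_filter.1 he'
      -- a lowest edge has minimal slope
      have hlow : ∀ e ∈ E, (¬ ∃ f, Below E e f) → ∀ g ∈ E, g.1 = e.1 → slp e ≤ slp g := by
        intro e he hno g hg hge
        by_contra hlt
        push Not at hlt
        apply hno
        let S := E.filter fun g => g.1 = e.1 ∧ slp g < slp e
        have hS : S.Nonempty := ⟨g, Finset.mem_filter.2 ⟨hg, hge, hlt⟩⟩
        obtain ⟨f, hf, hmax⟩ := S.exists_max_image slp hS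
        obtain ⟨k1, k2, k3⟩ := Finset.mem_filter.1 hf
        exact ⟨f, k1, k2, k3, fun g hg hge hlt => hmax g (Finset.mem_filter.2 ⟨hg, hge, hlt⟩)⟩
      have hs1 := hlow e h1 h2 e' h1' heq.symm
      have hs2 := hlow e' h1' h2' e h1 heq
      have hs : slp e = slp e' := le_antisymm hs1 hs2
      by_contra hne
      have hx1 := hP.lt e h1
      have hx2 := hP.lt e' h1'
      have heq1 : e.1.1 = e'.1.1 := by rw [heq]
      obtain ⟨x, hx⟩ := exists_between (lt_min hx1 (by rw [heq1]; exact hx2) :
        e.1.1 < min e.2.1 e'.2.1)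
      apply hP.cross e h1 e' h1' hne x hx.1 (lt_of_lt_of_le hx.2 (min_le_left _ _))
        (by rw [← heq1]; exact hx.1) (lt_of_lt_of_le hx.2 (min_le_right _ _))
      unfold ht
      rw [hs, heq]
  have hA : A.card ≤ 2 * V.card := by
    have hex : ∀ e : Pt × Pt, ∃ fc : (Pt × Pt) × Pt, e ∈ A → Below E e fc.1 ∧ First V e fc.1 fc.2 := by
      intro e
      by_cases he : e ∈ A
      · obtain ⟨h1, f, h2⟩ := Finset.mem_filter.1 he
        obtain ⟨c, hc⟩ := exists_first hP h1 h2
        exact ⟨(f, c), fun _ => ⟨h2, hc⟩⟩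
      · exact ⟨(e, 0), fun h => absurd h he⟩
    choose φ hφ using hex
    have hle : A.card ≤ (V ×ˢ (Finset.univ : Finset Bool)).card := by
      apply Finset.card_le_card_of_injOn (fun e => ((φ e).2, decide ((φ e).2 = e.2)))
      · intro e he
        rw [Finset.mem_coe, Finset.mem_product]
        exact ⟨(hφ e he).2.mem, Finset.mem_univ _⟩
      · intro e he e' he' heq
        have hc : (φ e).2 = (φ e').2 := congrArg Prod.fst heq
        have hd : decide ((φ e).2 = e.2) = decide ((φ e').2 = e'.2) := congrArg Prod.snd heq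
        obtain ⟨hb, hf⟩ := hφ e he
        obtain ⟨hb', hf'⟩ := hφ e' he'
        have hE := (Finset.mem_filter.1 he).1
        have hE' := (Finset.mem_filter.1 he').1
        rw [← hc] at hf' hd
        by_cases hce : (φ e).2 = e.2
        · -- the first vertex is the right end of both
          have hce' : (φ e).2 = e'.2 := by
            rw [decide_eq_true hce] at hd
            exact of_decide_eq_true hd.symm
          have hnf : (φ e).2 ≠ (φ e).1.2 := by
            intro h1
            have h2 := hb.ht_lt hf.gt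
            have h3 : ht (φ e).1 (φ e).2.1 = (φ e).2.2 := by
              conv_rhs => rw [h1]
              conv_lhs => rw [h1]
              exact ht_right (hP.lt _ hb.mem)
            have h4 : ht e (φ e).2.1 = (φ e).2.2 := by
              conv_rhs => rw [hce]
              conv_lhs => rw [hce]
              exact ht_right (hP.lt _ hE)
            rw [h3, h4] at h2
            exact lt_irrefl _ h2
          have hnf' : (φ e).2 ≠ (φ e').1.2 := by
            intro h1
            have h2 := hb'.ht_lt hf'.gt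
            have h3 : ht (φ e').1 (φ e).2.1 = (φ e).2.2 := by
              rw [h1]
              exact ht_right (hP.lt _ hb'.mem)
            have h4 : ht e' (φ e).2.1 = (φ e).2.2 := by
              rw [hce']
              exact ht_right (hP.lt _ hE')
            rw [h3, h4] at h2
            exact lt_irrefl _ h2
          have k1 := down_le hP hE' hb hb' hf hf' hce' hnf
          have k2 := down_le hP hE hb' hb hf' hf hce hnf'
          have k3 := le_antisymm k1 k2
          have hff : (φ e).1 = (φ e').1 := by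
            by_contra hne
            have hx1 : (φ e).2.1 < (φ e).1.2.1 := by
              rcases hf.le₂.lt_or_eq with h1 | h1
              · exact h1
              · exact absurd (hP.inj _ hf.mem _ (hP.right _ hb.mem) h1) hnf
            have hx2 : (φ e).2.1 < (φ e').1.2.1 := by
              rcases hf'.le₂.lt_or_eq with h1 | h1
              · exact h1
              · exact absurd (hP.inj _ hf'.mem _ (hP.right _ hb'.mem) h1) hnf'
            exact hP.cross _ hb.mem _ hb'.mem hne _ (by rw [hb.left]; exact hf.gt) hx1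
              (by rw [hb'.left]; exact hf'.gt) hx2 k3
          have h1 : e.1 = e'.1 := by rw [← hb.left, ← hb'.left, hff]
          have h2 : e.2 = e'.2 := by rw [← hce, ← hce']
          exact Prod.ext h1 h2
        · have hce' : (φ e).2 ≠ e'.2 := by
            rw [decide_eq_false hce] at hd
            exact of_decide_eq_false hd.symm
          have k1 := up_le hP hE hE' hb' hf hf' hce
          have k2 := up_le hP hE' hE hb hf' hf hce'
          have k3 := le_antisymm k2 k1
          by_contra hne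
          have hx1 : (φ e).2.1 < e.2.1 := by
            rcases hf.le₁.lt_or_eq with h1 | h1
            · exact h1
            · exact absurd (hP.inj _ hf.mem _ (hP.right _ hE) h1) hce
          have hx2 : (φ e).2.1 < e'.2.1 := by
            rcases hf'.le₁.lt_or_eq with h1 | h1
            · exact h1
            · exact absurd (hP.inj _ hf'.mem _ (hP.right _ hE') h1) hce'
          exact hP.cross _ hE _ hE' hne _ hf.gt hx1 hf'.gt hx2 k3
    rw [Finset.card_product, Finset.card_univ, Fintype.card_bool] at hle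
    omega
  omega

end Pool.Agent.Helper65.ST
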