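import Mathlib
import Pool.Agent.Helper65.ST.Plane

set_option autoImplicit false

/-!
The crossing inequality for straight-line graphs.
-/

namespace Pool.Agent.Helper65.ST

/-- A straight-line graph (crossings allowed) with no vertex in the interior of an edge. -/
structure Geo (V : Finset Pt) (E : Finset (Pt × Pt)) : Prop where
  left : ∀ e ∈ E, e.1 ∈ V
  right : ∀ e ∈ E, e.2 ∈ V
  lt : ∀ e ∈ E, e.1.1 < e.2.1
  inj : ∀ p ∈ V, ∀ q ∈ V, p.1 = q.1 → p = q
  vert : ∀ p ∈ V, ∀ e ∈ E, e.1.1 < p.1 → p.1 < e.2.1 → p.2 ≠ ht e p.1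

/-- the edges `e`, `f` cross at the abscissa `x` -/
def CrAt (e f : Pt × Pt) (x : ℝ) : Prop :=
  e.1.1 < x ∧ x < e.2.1 ∧ f.1.1 < x ∧ x < f.2.1 ∧ ht e x = ht f x

open Classical in
/-- ordered pairs of crossing edges -/
noncomputable def crs (E : Finset (Pt × Pt)) : Finset ((Pt × Pt) × (Pt × Pt)) :=
  (E ×ˢ E).filter fun ef => ef.1 ≠ ef.2 ∧ ∃ x, CrAt ef.1 ef.2 x

lemma mem_crs {E : Finset (Pt × Pt)} {ef : (Pt × Pt) × (Pt × Pt)} :
    ef ∈ crs E ↔ ef.1 ∈ E ∧ ef.2 ∈ E ∧ ef.1 ≠ ef.2 ∧ ∃ x, CrAt ef.1 ef.2 x := by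
  classical
  rw [crs, Finset.mem_filter, Finset.mem_product, and_assoc]

variable {V : Finset Pt} {E : Finset (Pt × Pt)}

lemma Geo.mono (h : Geo V E) {V' : Finset Pt} {E' : Finset (Pt × Pt)} (hV : V' ⊆ V)
    (hE : E' ⊆ E) (h1 : ∀ e ∈ E', e.1 ∈ V') (h2 : ∀ e ∈ E', e.2 ∈ V') : Geo V' E' where
  left := h1
  right := h2
  lt e he := h.lt e (hE he)
  inj p hp q hq := h.inj p (hV hp) q (hV hq)
  vert p hp e he := h.vert p (hV hp) e (hE he)

/-- The basic inequality. -/
lemma Geo.card_le (h : Geo V E) : E.card ≤ 3 * V.card + (crs E).card := by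
  classical
  let B := E.filter fun e => ∃ f ∈ E, e ≠ f ∧ ∃ x, CrAt e f x
  let A := E.filter fun e => ¬ ∃ f ∈ E, e ≠ f ∧ ∃ x, CrAt e f x
  have hAB : B.card + A.card = E.card := Finset.card_filter_add_card_filter_not _
  have hA : A.card ≤ 3 * V.card := by
    apply Plane.card_le (E := A)
    refine ⟨fun e he => h.left e (Finset.mem_filter.1 he).1,
      fun e he => h.right e (Finset.mem_filter.1 he).1,
      fun e he => h.lt e (Finset.mem_filter.1 he).1, h.inj, ?_, ?_⟩
    · intro e he f hf hne x h1 h2 h3 h4 h5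
      obtain ⟨k1, k2⟩ := Finset.mem_filter.1 he
      exact k2 ⟨f, (Finset.mem_filter.1 hf).1, hne, x, h1, h2, h3, h4, h5⟩
    · intro p hp e he
      exact h.vert p hp e (Finset.mem_filter.1 he).1
  have hB : B.card ≤ (crs E).card := by
    have hsub : B ⊆ (crs E).image Prod.fst := by
      intro e he
      obtain ⟨k1, f, k2, k3, k4⟩ := Finset.mem_filter.1 he
      exact Finset.mem_image.2 ⟨(e, f), mem_crs.2 ⟨k1, k2, k3, k4⟩, rfl⟩
    exact (Finset.card_le_card hsub).trans Finset.card_image_le
  omega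

lemma ht_eq_of {e f : Pt × Pt} (hs : slp e = slp f) {x : ℝ} (hx : ht e x = ht f x) (y : ℝ) :
    ht e y = ht f y := by
  unfold ht at *
  rw [hs] at *
  linarith

/-- crossing edges have different slopes -/
lemma Geo.slp_ne (h : Geo V E) {e f : Pt × Pt} (he : e ∈ E) (hf : f ∈ E) (hne : e ≠ f) {x : ℝ}
    (hx : CrAt e f x) : slp e ≠ slp f := by
  intro hs
  obtain ⟨h1, h2, h3, h4, h5⟩ := hx
  have hall := ht_eq_of hs h5
  have k1 : e.1.1 = f.1.1 := by
    rcases lt_trichotomy e.1.1 f.1.1 with hlt | heq | hgt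
    · exact absurd (by rw [hall, ht_left]) (h.vert f.1 (h.left f hf) e he hlt (by linarith))
    · exact heq
    · exact absurd (by rw [← hall, ht_left]) (h.vert e.1 (h.left e he) f hf hgt (by linarith))
  have k2 : e.2.1 = f.2.1 := by
    rcases lt_trichotomy e.2.1 f.2.1 with hlt | heq | hgt
    · exact absurd (by rw [← hall, ht_right (h.lt e he)])
        (h.vert e.2 (h.right e he) f hf (by linarith) hlt)
    · exact heq
    · exact absurd (by rw [hall, ht_right (h.lt f hf)])
        (h.vert f.2 (h.right f hf) e he (by linarith) hgt)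
  exact hne (Prod.ext (h.inj _ (h.left e he) _ (h.left f hf) k1)
    (h.inj _ (h.right e he) _ (h.right f hf) k2))

/-- two lines with different slopes meet once -/
lemma eq_of_ht_eq {e f : Pt × Pt} (hs : slp e ≠ slp f) {x y : ℝ} (hx : ht e x = ht f x)
    (hy : ht e y = ht f y) : x = y := by
  unfold ht at *
  have h1 : (slp e - slp f) * (x - y) = 0 := by linarith
  rcases mul_eq_zero.1 h1 with h2 | h2
  · exact absurd (sub_eq_zero.1 h2) hs
  · exact sub_eq_zero.1 h2

/-- the four ends of two crossing edges are distinct -/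
lemma Geo.card_four (h : Geo V E) {e f : Pt × Pt} (he : e ∈ E) (hf : f ∈ E) (hne : e ≠ f) {x : ℝ}
    (hx : CrAt e f x) : ({e.1, e.2, f.1, f.2} : Finset Pt).card = 4 := by
  have hs := h.slp_ne he hf hne hx
  obtain ⟨h1, h2, h3, h4, h5⟩ := hx
  have hle := h.lt e he
  have hlf := h.lt f hf
  have n1 : e.1 ≠ e.2 := fun hh => by rw [hh] at hle; exact lt_irrefl _ hle
  have n2 : f.1 ≠ f.2 := fun hh => by rw [hh] at hlf; exact lt_irrefl _ hlf
  have n3 : e.1 ≠ f.1 := fun hh => by
    have : ht e e.1.1 = ht f e.1.1 := by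
      rw [ht_left]
      conv_rhs => rw [hh]
      rw [ht_left, hh]
    have := eq_of_ht_eq hs h5 this
    linarith
  have n4 : e.1 ≠ f.2 := fun hh => by
    rw [hh] at h1
    linarith
  have n5 : e.2 ≠ f.1 := fun hh => by
    rw [hh] at h2
    linarith
  have n6 : e.2 ≠ f.2 := fun hh => by
    have : ht e e.2.1 = ht f e.2.1 := by
      rw [ht_right hle]
      conv_rhs => rw [hh]
      rw [ht_right hlf, hh]
    have := eq_of_ht_eq hs h5 this
    linarith
  rw [Finset.card_insert_of_notMem, Finset.card_insert_of_notMem, Finset.card_insert_of_notMem,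
    Finset.card_singleton]
  · simp [n2]
  · simp [n5, n6]
  · simp [n1, n3, n4]

/-- the weight of the subsets that contain `S` -/
lemma sum_weight {α : Type*} [DecidableEq α] (V S : Finset α) (hS : S ⊆ V) (p : ℝ) :
    ∑ W ∈ V.powerset, p ^ W.card * (1 - p) ^ (V.card - W.card) * (if S ⊆ W then 1 else 0) =
      p ^ S.card := by
  have h1 : ∑ W ∈ V.powerset, p ^ W.card * (1 - p) ^ (V.card - W.card) *
      (if S ⊆ W then (1 : ℝ) else 0) =
      ∑ W ∈ V.powerset.filter (fun W => S ⊆ W), p ^ W.card * (1 - p) ^ (V.card - W.card) := by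
    rw [Finset.sum_filter]
    apply Finset.sum_congr rfl
    intro W _
    split_ifs <;> ring
  rw [h1]
  have h2 : ∑ W ∈ V.powerset.filter (fun W => S ⊆ W), p ^ W.card * (1 - p) ^ (V.card - W.card) =
      ∑ T ∈ (V \ S).powerset, p ^ (S.card + T.card) * (1 - p) ^ ((V \ S).card - T.card) := by
    symm
    apply Finset.sum_bij (fun T _ => S ∪ T)
    · intro T hT
      rw [Finset.mem_powerset] at hT
      rw [Finset.mem_filter, Finset.mem_powerset]
      exact ⟨Finset.union_subset hS (hT.trans Finset.sdiff_subset), Finset.subset_union_left⟩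
    · intro T hT T' hT' heq
      rw [Finset.mem_powerset] at hT hT'
      have d1 : Disjoint T S := Finset.disjoint_of_subset_left hT Finset.sdiff_disjoint
      have d2 : Disjoint T' S := Finset.disjoint_of_subset_left hT' Finset.sdiff_disjoint
      have : (S ∪ T) \ S = (S ∪ T') \ S := by rw [heq]
      rwa [Finset.union_sdiff_cancel_left d1.symm, Finset.union_sdiff_cancel_left d2.symm] at this
    · intro W hW
      rw [Finset.mem_filter, Finset.mem_powerset] at hW
      refine ⟨W \ S, ?_, ?_⟩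
      · rw [Finset.mem_powerset]
        exact Finset.sdiff_subset_sdiff hW.1 le_rfl
      · exact Finset.union_sdiff_of_subset hW.2
    · intro T hT
      rw [Finset.mem_powerset] at hT
      have d1 : Disjoint S T := (Finset.disjoint_of_subset_left hT Finset.sdiff_disjoint).symm
      rw [Finset.card_union_of_disjoint d1, Finset.card_sdiff_of_subset hS]
      congr 2
      omega
  rw [h2]
  have h3 : ∀ T ∈ (V \ S).powerset, p ^ (S.card + T.card) * (1 - p) ^ ((V \ S).card - T.card) =
      p ^ S.card * (p ^ T.card * (1 - p) ^ ((V \ S).card - T.card)) := by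
    intro T _
    rw [pow_add]; ring
  rw [Finset.sum_congr rfl h3, ← Finset.mul_sum, Finset.sum_pow_mul_eq_add_pow]
  simp

/-- The averaged inequality. -/
lemma Geo.average (h : Geo V E) {p : ℝ} (hp0 : 0 ≤ p) (hp1 : p ≤ 1) :
    p ^ 2 * E.card ≤ 3 * p * V.card + p ^ 4 * (crs E).card := by
  classical
  let w : Finset Pt → ℝ := fun W => p ^ W.card * (1 - p) ^ (V.card - W.card)
  have hw : ∀ W, 0 ≤ w W := fun W =>
    mul_nonneg (pow_nonneg hp0 _) (pow_nonneg (by linarith) _)
  let EW : Finset Pt → Finset (Pt × Pt) := fun W => E.filter fun e => ({e.1, e.2} : Finset Pt) ⊆ W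
  let XW : Finset Pt → Finset ((Pt × Pt) × (Pt × Pt)) := fun W =>
    (crs E).filter fun ef => ({ef.1.1, ef.1.2, ef.2.1, ef.2.2} : Finset Pt) ⊆ W
  have hbase : ∀ W ∈ V.powerset, ((EW W).card : ℝ) ≤ 3 * W.card + (XW W).card := by
    intro W hW
    rw [Finset.mem_powerset] at hW
    have h1 : Geo W (EW W) := by
      apply h.mono hW (Finset.filter_subset _ _)
      · intro e he
        exact (Finset.mem_filter.1 he).2 (by simp)
      · intro e he
        exact (Finset.mem_filter.1 he).2 (by simp)
    have h2 := h1.card_le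
    have h3 : crs (EW W) ⊆ XW W := by
      intro ef hef
      rw [mem_crs] at hef
      obtain ⟨k1, k2, k3⟩ := hef
      obtain ⟨k1, k1'⟩ := Finset.mem_filter.1 k1
      obtain ⟨k2, k2'⟩ := Finset.mem_filter.1 k2
      rw [Finset.mem_filter, mem_crs]
      refine ⟨⟨k1, k2, k3⟩, ?_⟩
      intro z hz
      simp only [Finset.mem_insert, Finset.mem_singleton] at hz
      rcases hz with rfl | rfl | rfl | rfl
      · exact k1' (by simp)
      · exact k1' (by simp)
      · exact k2' (by simp)
      · exact k2' (by simp)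
    have h4 := Finset.card_le_card h3
    have h5 : (EW W).card ≤ 3 * W.card + (XW W).card := by omega
    exact_mod_cast h5
  have hsum : ∑ W ∈ V.powerset, w W * (EW W).card ≤
      3 * ∑ W ∈ V.powerset, w W * W.card + ∑ W ∈ V.powerset, w W * (XW W).card := by
    rw [Finset.mul_sum, ← Finset.sum_add_distrib]
    apply Finset.sum_le_sum
    intro W hW
    have := mul_le_mul_of_nonneg_left (hbase W hW) (hw W)
    linarith
  have hE : ∑ W ∈ V.powerset, w W * (EW W).card = p ^ 2 * E.card := by
    have h1 : ∀ W ∈ V.powerset, w W * (EW W).card =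
        ∑ e ∈ E, w W * (if ({e.1, e.2} : Finset Pt) ⊆ W then 1 else 0) := by
      intro W _
      rw [← Finset.mul_sum, Finset.sum_boole]
    rw [Finset.sum_congr rfl h1, Finset.sum_comm]
    have h2 : ∀ e ∈ E, ∑ W ∈ V.powerset, w W * (if ({e.1, e.2} : Finset Pt) ⊆ W then 1 else 0) =
        p ^ 2 := by
      intro e he
      rw [sum_weight V {e.1, e.2} _ p]
      · congr 1
        apply Finset.card_pair
        intro hh
        have := h.lt e he
        rw [hh] at this
        exact lt_irrefl _ this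
      · intro z hz
        simp only [Finset.mem_insert, Finset.mem_singleton] at hz
        rcases hz with rfl | rfl
        · exact h.left e he
        · exact h.right e he
    rw [Finset.sum_congr rfl h2, Finset.sum_const, nsmul_eq_mul, mul_comm]
  have hV : ∑ W ∈ V.powerset, w W * W.card = p * V.card := by
    have h1 : ∀ W ∈ V.powerset, w W * W.card =
        ∑ z ∈ V, w W * (if ({z} : Finset Pt) ⊆ W then 1 else 0) := by
      intro W hW
      rw [Finset.mem_powerset] at hW
      rw [← Finset.mul_sum, Finset.sum_boole]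
      congr 2
      simp only [Finset.singleton_subset_iff]
      rw [Finset.filter_mem_eq_inter, Finset.inter_eq_right.2 hW]
    rw [Finset.sum_congr rfl h1, Finset.sum_comm]
    have h2 : ∀ z ∈ V, ∑ W ∈ V.powerset, w W * (if ({z} : Finset Pt) ⊆ W then 1 else 0) = p := by
      intro z hz
      rw [sum_weight V {z} (Finset.singleton_subset_iff.2 hz) p, Finset.card_singleton, pow_one]
    rw [Finset.sum_congr rfl h2, Finset.sum_const, nsmul_eq_mul, mul_comm]
  have hX : ∑ W ∈ V.powerset, w W * (XW W).card = p ^ 4 * (crs E).card := by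
    have h1 : ∀ W ∈ V.powerset, w W * (XW W).card = ∑ ef ∈ crs E,
        w W * (if ({ef.1.1, ef.1.2, ef.2.1, ef.2.2} : Finset Pt) ⊆ W then 1 else 0) := by
      intro W _
      rw [← Finset.mul_sum, Finset.sum_boole]
    rw [Finset.sum_congr rfl h1, Finset.sum_comm]
    have h2 : ∀ ef ∈ crs E, ∑ W ∈ V.powerset, w W *
        (if ({ef.1.1, ef.1.2, ef.2.1, ef.2.2} : Finset Pt) ⊆ W then 1 else 0) = p ^ 4 := by
      intro ef hef
      rw [mem_crs] at hef
      obtain ⟨k1, k2, k3, x, k4⟩ := hef
      rw [sum_weight V {ef.1.1, ef.1.2, ef.2.1, ef.2.2} _ p]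
      · rw [h.card_four k1 k2 k3 k4]
      · intro z hz
        simp only [Finset.mem_insert, Finset.mem_singleton] at hz
        rcases hz with rfl | rfl | rfl | rfl
        · exact h.left _ k1
        · exact h.right _ k1
        · exact h.left _ k2
        · exact h.right _ k2
    rw [Finset.sum_congr rfl h2, Finset.sum_const, nsmul_eq_mul, mul_comm]
  rw [hE, hV, hX] at hsum
  linarith

/-- **The crossing inequality** (with ordered pairs of crossing edges). -/
theorem Geo.crossing (h : Geo V E) (hE : 6 * V.card ≤ E.card) :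
    E.card ^ 3 ≤ 72 * V.card ^ 2 * (crs E).card := by
  rcases Nat.eq_zero_or_pos V.card with h0 | hpos
  · have hE0 : E = ∅ := by
      rw [Finset.eq_empty_iff_forall_notMem]
      intro e he
      have := h.left e he
      rw [Finset.card_eq_zero.1 h0] at this
      exact absurd this (Finset.notMem_empty _)
    rw [hE0, h0]
    simp
  have hn : (0 : ℝ) < V.card := by exact_mod_cast hpos
  have he : (0 : ℝ) < E.card := by
    have : 0 < E.card := by omega
    exact_mod_cast this
  have hE' : 6 * (V.card : ℝ) ≤ E.card := by exact_mod_cast hE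
  have hav := h.average (p := 6 * V.card / E.card) (by positivity)
    (by rw [div_le_one he]; exact hE')
  set n : ℝ := (V.card : ℝ) with hn_def
  set m : ℝ := (E.card : ℝ) with hm_def
  set c : ℝ := ((crs E).card : ℝ) with hc_def
  have h1 : (6 * n / m) ^ 2 * m = 36 * n ^ 2 / m := by field_simp; ring
  have h2 : 3 * (6 * n / m) * n = 18 * n ^ 2 / m := by field_simp; ring
  have h3 : (6 * n / m) ^ 4 * c = 1296 * n ^ 4 * c / m ^ 4 := by field_simp; ring
  rw [h1, h2, h3] at hav
  have h4 : 18 * n ^ 2 / m ≤ 1296 * n ^ 4 * c / m ^ 4 := by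
    have : 36 * n ^ 2 / m = 18 * n ^ 2 / m + 18 * n ^ 2 / m := by ring
    linarith
  rw [div_le_div_iff₀ he (by positivity)] at h4
  have h5 : m ^ 3 ≤ 72 * n ^ 2 * c := by
    have h6 : (18 * n ^ 2 * m) * m ^ 3 ≤ (18 * n ^ 2 * m) * (72 * n ^ 2 * c) := by nlinarith
    exact le_of_mul_le_mul_left h6 (by positivity)
  have h6 : ((E.card ^ 3 : ℕ) : ℝ) ≤ ((72 * V.card ^ 2 * (crs E).card : ℕ) : ℝ) := by
    push_cast
    exact h5
  exact_mod_cast h6

end Pool.Agent.Helper65.ST
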