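import Mathlib
import Pool.Agent.Helper65.ST.Cross

set_option autoImplicit false

/-!
The Szemeredi-Trotter bound for the number of `k`-rich lines.
-/

namespace Pool.Agent.Helper65.ST

/-- the point `p` lies on the line `y = m x + c`, `L = (m, c)` -/
def OnL (L : ℝ × ℝ) (p : Pt) : Prop := p.2 = L.1 * p.1 + L.2

/-- the line of a segment -/
noncomputable def lineOf (e : Pt × Pt) : ℝ × ℝ := (slp e, e.1.2 - slp e * e.1.1)

lemma ht_eq (e : Pt × Pt) (x : ℝ) : ht e x = (lineOf e).1 * x + (lineOf e).2 := by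
  unfold ht lineOf
  ring

lemma onL_left (e : Pt × Pt) : OnL (lineOf e) e.1 := by
  unfold OnL lineOf
  ring

lemma onL_right {e : Pt × Pt} (h : e.1.1 < e.2.1) : OnL (lineOf e) e.2 := by
  unfold OnL
  rw [← ht_eq, ht_right h]

lemma lineOf_eq {e : Pt × Pt} (h : e.1.1 < e.2.1) {L : ℝ × ℝ} (h1 : OnL L e.1) (h2 : OnL L e.2) :
    lineOf e = L := by
  unfold OnL at h1 h2
  have hne : e.2.1 - e.1.1 ≠ 0 := by linarith
  have hs : slp e = L.1 := by
    unfold slp
    rw [h1, h2]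
    field_simp
    ring
  apply Prod.ext
  · exact hs
  · show e.1.2 - slp e * e.1.1 = L.2
    rw [hs, h1]
    ring

open Classical in
/-- the points of `V` on `L` -/
noncomputable def pts (V : Finset Pt) (L : ℝ × ℝ) : Finset Pt := V.filter fun p => OnL L p

lemma mem_pts {V : Finset Pt} {L : ℝ × ℝ} {p : Pt} : p ∈ pts V L ↔ p ∈ V ∧ OnL L p := by
  classical
  rw [pts, Finset.mem_filter]

open Classical in
/-- pairs of consecutive points on the lines of `Ls` -/
noncomputable def edges (V : Finset Pt) (Ls : Finset (ℝ × ℝ)) : Finset (Pt × Pt) :=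
  (V ×ˢ V).filter fun e => e.1.1 < e.2.1 ∧ lineOf e ∈ Ls ∧
    ∀ r ∈ V, OnL (lineOf e) r → ¬ (e.1.1 < r.1 ∧ r.1 < e.2.1)

lemma mem_edges {V : Finset Pt} {Ls : Finset (ℝ × ℝ)} {e : Pt × Pt} :
    e ∈ edges V Ls ↔ (e.1 ∈ V ∧ e.2 ∈ V) ∧ e.1.1 < e.2.1 ∧ lineOf e ∈ Ls ∧
      ∀ r ∈ V, OnL (lineOf e) r → ¬ (e.1.1 < r.1 ∧ r.1 < e.2.1) := by
  classical
  rw [edges, Finset.mem_filter, Finset.mem_product]

variable {V : Finset Pt} {Ls : Finset (ℝ × ℝ)}

lemma geo_edges (hV : ∀ p ∈ V, ∀ q ∈ V, p.1 = q.1 → p = q) : Geo V (edges V Ls) where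
  left e he := (mem_edges.1 he).1.1
  right e he := (mem_edges.1 he).1.2
  lt e he := (mem_edges.1 he).2.1
  inj := hV
  vert p hp e he h1 h2 h3 := by
    apply (mem_edges.1 he).2.2.2 p hp _ ⟨h1, h2⟩
    unfold OnL
    rw [← ht_eq]
    exact h3

open Classical in
lemma card_fiber (L : ℝ × ℝ) (hL : L ∈ Ls) :
    (pts V L).card ≤ ((edges V Ls).filter fun e => lineOf e = L).card + 1 := by
  rcases (pts V L).eq_empty_or_nonempty with h0 | hne
  · rw [h0]; simp
  obtain ⟨M, hM, hmax⟩ := (pts V L).exists_max_image (fun p => p.1) hne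
  -- points which are not rightmost
  let A := (pts V L).filter fun p => ∃ q ∈ pts V L, p.1 < q.1
  have hA : (pts V L).card ≤ A.card + 1 + ((pts V L).filter fun p => p.1 = M.1 ∧ p ≠ M).card := by
    have : pts V L ⊆ insert M (A ∪ (pts V L).filter fun p => p.1 = M.1 ∧ p ≠ M) := by
      intro p hp
      rw [Finset.mem_insert, Finset.mem_union]
      by_cases h1 : p = M
      · exact Or.inl h1
      · right
        rcases (hmax p hp).lt_or_eq with h2 | h2
        · exact Or.inl (Finset.mem_filter.2 ⟨hp, M, hM, h2⟩)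
        · exact Or.inr (Finset.mem_filter.2 ⟨hp, h2, h1⟩)
    calc (pts V L).card ≤ _ := Finset.card_le_card this
      _ ≤ _ := Finset.card_insert_le _ _
      _ ≤ A.card + ((pts V L).filter fun p => p.1 = M.1 ∧ p ≠ M).card + 1 := by
        have := Finset.card_union_le A ((pts V L).filter fun p => p.1 = M.1 ∧ p ≠ M)
        omega
      _ = _ := by ring
  have hzero : ((pts V L).filter fun p => p.1 = M.1 ∧ p ≠ M).card = 0 := by
    rw [Finset.card_eq_zero, Finset.filter_eq_empty_iff]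
    rintro p hp ⟨h1, h2⟩
    apply h2
    have h3 := (mem_pts.1 hp).2
    have h4 := (mem_pts.1 hM).2
    unfold OnL at h3 h4
    exact Prod.ext h1 (by rw [h3, h4, h1])
  have hnext : ∀ p : Pt, ∃ q : Pt, p ∈ A → q ∈ pts V L ∧ p.1 < q.1 ∧
      ∀ r ∈ pts V L, p.1 < r.1 → q.1 ≤ r.1 := by
    intro p
    by_cases hp : p ∈ A
    · obtain ⟨h1, q, h2, h3⟩ := Finset.mem_filter.1 hp
      obtain ⟨q', hq', hmin⟩ := ((pts V L).filter fun r => p.1 < r.1).exists_min_image
        (fun r => r.1) ⟨q, Finset.mem_filter.2 ⟨h2, h3⟩⟩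
      rw [Finset.mem_filter] at hq'
      exact ⟨q', fun _ => ⟨hq'.1, hq'.2, fun r hr hr' => hmin r (Finset.mem_filter.2 ⟨hr, hr'⟩)⟩⟩
    · exact ⟨p, fun h => absurd h hp⟩
  choose nx hnx using hnext
  have hcard : A.card ≤ ((edges V Ls).filter fun e => lineOf e = L).card := by
    apply Finset.card_le_card_of_injOn (fun p => (p, nx p))
    · intro p hp
      obtain ⟨k1, k2, k3⟩ := hnx p hp
      have hpL := mem_pts.1 (Finset.mem_filter.1 hp).1
      have hqL := mem_pts.1 k1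
      have hline : lineOf (p, nx p) = L := lineOf_eq (e := (p, nx p)) k2 hpL.2 hqL.2
      rw [Finset.mem_coe, Finset.mem_filter, mem_edges]
      refine ⟨⟨⟨hpL.1, hqL.1⟩, k2, by rw [hline]; exact hL, ?_⟩, hline⟩
      intro r hr hrL ⟨h1, h2⟩
      rw [hline] at hrL
      have := k3 r (mem_pts.2 ⟨hr, hrL⟩) h1
      exact absurd h2 (not_lt.2 this)
    · intro p _ q _ h
      exact congrArg Prod.fst h
  omega

lemma card_edges_ge {k : ℕ} (hk : ∀ L ∈ Ls, k ≤ (pts V L).card) :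
    Ls.card * (k - 1) ≤ (edges V Ls).card := by
  classical
  rw [Finset.card_eq_sum_card_fiberwise (f := lineOf) (t := Ls)
    (fun e he => (mem_edges.1 he).2.2.1)]
  rw [← smul_eq_mul, ← Finset.sum_const]
  apply Finset.sum_le_sum
  intro L hL
  have h1 := card_fiber (V := V) L hL
  have h2 := hk L hL
  omega

/-- two edges on the same line whose open intervals meet are equal -/
lemma edge_unique {e e' : Pt × Pt} (he : e ∈ edges V Ls)
    (he' : e' ∈ edges V Ls) (hline : lineOf e = lineOf e') {x : ℝ} (h1 : e.1.1 < x)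
    (h2 : x < e.2.1) (h3 : e'.1.1 < x) (h4 : x < e'.2.1) : e = e' := by
  have m := mem_edges.1 he
  have m' := mem_edges.1 he'
  have hl := onL_left e
  have hr := onL_right m.2.1
  have hl' := onL_left e'
  have hr' := onL_right m'.2.1
  have k1 : e.1.1 = e'.1.1 := by
    rcases lt_trichotomy e.1.1 e'.1.1 with hlt | heq | hgt
    · exact absurd ⟨hlt, by linarith⟩ (m.2.2.2 e'.1 m'.1.1 (by rw [hline]; exact hl'))
    · exact heq
    · exact absurd ⟨hgt, by linarith⟩ (m'.2.2.2 e.1 m.1.1 (by rw [← hline]; exact hl))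
  have k2 : e.2.1 = e'.2.1 := by
    rcases lt_trichotomy e.2.1 e'.2.1 with hlt | heq | hgt
    · exact absurd ⟨by linarith, hlt⟩ (m'.2.2.2 e.2 m.1.2 (by rw [← hline]; exact hr))
    · exact heq
    · exact absurd ⟨by linarith, hgt⟩ (m.2.2.2 e'.2 m'.1.2 (by rw [hline]; exact hr'))
  unfold OnL at hl hr hl' hr'
  rw [hline] at hl hr
  apply Prod.ext
  · exact Prod.ext k1 (by rw [hl, hl', k1])
  · exact Prod.ext k2 (by rw [hr, hr', k2])

lemma card_crs_le (hV : ∀ p ∈ V, ∀ q ∈ V, p.1 = q.1 → p = q) :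
    (crs (edges V Ls)).card ≤ Ls.card ^ 2 := by
  classical
  rw [pow_two, ← Finset.card_product]
  apply Finset.card_le_card_of_injOn (fun ef => (lineOf ef.1, lineOf ef.2))
  · intro ef hef
    rw [Finset.mem_coe, mem_crs] at hef
    rw [Finset.mem_coe, Finset.mem_product]
    exact ⟨(mem_edges.1 hef.1).2.2.1, (mem_edges.1 hef.2.1).2.2.1⟩
  · rintro ⟨e, f⟩ hef ⟨e', f'⟩ hef' heq
    rw [Finset.mem_coe, mem_crs] at hef hef'
    obtain ⟨h1, h2, h3, x, h4⟩ := hef
    obtain ⟨h1', h2', h3', x', h4'⟩ := hef'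
    have hl : lineOf e = lineOf e' := congrArg Prod.fst heq
    have hm : lineOf f = lineOf f' := congrArg Prod.snd heq
    have hs := (geo_edges (Ls := Ls) hV).slp_ne h1 h2 h3 h4
    obtain ⟨a1, a2, a3, a4, a5⟩ := h4
    obtain ⟨b1, b2, b3, b4, b5⟩ := h4'
    have hx : x = x' := by
      apply eq_of_ht_eq hs a5
      rw [ht_eq, ht_eq, hl, hm, ← ht_eq, ← ht_eq]
      exact b5
    subst hx
    have e1 := edge_unique h1 h1' hl a1 a2 b1 b2
    have e2 := edge_unique h2 h2' hm a3 a4 b3 b4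
    exact Prod.ext e1 e2

/-- **Szemeredi-Trotter**, rich lines: `N` lines with at least `k ≥ 2` points of an `n`-point set
satisfy `N k³ ≤ 12 n k² + 576 n²`. -/
theorem rich_lines (hV : ∀ p ∈ V, ∀ q ∈ V, p.1 = q.1 → p = q) {k : ℕ} (hk2 : 2 ≤ k)
    (hk : ∀ L ∈ Ls, k ≤ (pts V L).card) :
    Ls.card * k ^ 3 ≤ 12 * V.card * k ^ 2 + 576 * V.card ^ 2 := by
  have h1 := card_edges_ge hk
  have h2 := card_crs_le (Ls := Ls) hV
  set N := Ls.card with hN
  set n := V.card with hn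
  set m := (edges V Ls).card with hm
  obtain ⟨j, rfl⟩ : ∃ j, k = j + 1 := ⟨k - 1, by omega⟩
  have hj : 1 ≤ j := by omega
  rw [Nat.add_sub_cancel] at h1
  by_cases hcase : m < 6 * n
  · have h3 : N * (j + 1) ≤ 12 * n := by nlinarith
    calc N * (j + 1) ^ 3 = (N * (j + 1)) * (j + 1) ^ 2 := by ring
      _ ≤ (12 * n) * (j + 1) ^ 2 := Nat.mul_le_mul_right _ h3
      _ ≤ _ := Nat.le_add_right _ _
  · push Not at hcase
    have h3 := (geo_edges (Ls := Ls) hV).crossing hcase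
    have h4 : (N * j) ^ 3 ≤ 72 * n ^ 2 * N ^ 2 :=
      (Nat.pow_le_pow_left h1 3).trans (h3.trans (Nat.mul_le_mul_left _ h2))
    rcases Nat.eq_zero_or_pos N with h0 | hpos
    · rw [h0]; simp
    · have h5 : N * j ^ 3 ≤ 72 * n ^ 2 := by
        have h6 : N ^ 2 * (N * j ^ 3) ≤ N ^ 2 * (72 * n ^ 2) := by
          calc N ^ 2 * (N * j ^ 3) = (N * j) ^ 3 := by ring
            _ ≤ 72 * n ^ 2 * N ^ 2 := h4
            _ = _ := by ring
        exact Nat.le_of_mul_le_mul_left h6 (by positivity)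
      have h7 : (j + 1) ^ 3 ≤ 8 * j ^ 3 := by
        calc (j + 1) ^ 3 ≤ (2 * j) ^ 3 := Nat.pow_le_pow_left (by omega) 3
          _ = 8 * j ^ 3 := by ring
      calc N * (j + 1) ^ 3 ≤ N * (8 * j ^ 3) := Nat.mul_le_mul_left _ h7
        _ = 8 * (N * j ^ 3) := by ring
        _ ≤ 8 * (72 * n ^ 2) := Nat.mul_le_mul_left _ h5
        _ = 576 * n ^ 2 := by ring
        _ ≤ _ := Nat.le_add_left _ _

end Pool.Agent.Helper65.ST
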