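import Mathlib
import Pool.Agent.Helper65.ST.Rich

set_option autoImplicit false

/-!
Averaging: a finite planar set has a point that lies in few collinear triples.
-/

namespace Pool.Agent.Helper65.ST

/-- three points on a common non-vertical line -/
def Col (p q r : Pt) : Prop := ∃ L : ℝ × ℝ, OnL L p ∧ OnL L q ∧ OnL L r

open Classical in
/-- all lines spanned by `V` -/
noncomputable def allL (V : Finset Pt) : Finset (ℝ × ℝ) :=
  ((V ×ˢ V).filter fun e => e.1.1 < e.2.1).image lineOf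

open Classical in
/-- the ordered pairs collinear with `v` -/
noncomputable def colPairs (V : Finset Pt) (v : Pt) : Finset (Pt × Pt) :=
  (V ×ˢ V).filter fun p => p.1 ≠ v ∧ p.2 ≠ v ∧ p.1 ≠ p.2 ∧ Col v p.1 p.2

variable {V : Finset Pt}

lemma mem_allL (hV : ∀ p ∈ V, ∀ q ∈ V, p.1 = q.1 → p = q) {p q : Pt} (hp : p ∈ V) (hq : q ∈ V)
    (hne : p ≠ q) {L : ℝ × ℝ} (h1 : OnL L p) (h2 : OnL L q) : L ∈ allL V := by
  classical
  rw [allL, Finset.mem_image]
  rcases lt_trichotomy p.1 q.1 with h | h | h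
  · exact ⟨(p, q), Finset.mem_filter.2 ⟨Finset.mem_product.2 ⟨hp, hq⟩, h⟩,
      lineOf_eq (e := (p, q)) h h1 h2⟩
  · exact absurd (hV p hp q hq h) hne
  · exact ⟨(q, p), Finset.mem_filter.2 ⟨Finset.mem_product.2 ⟨hq, hp⟩, h⟩,
      lineOf_eq (e := (q, p)) h h2 h1⟩

lemma two_le_pts {L : ℝ × ℝ} (hL : L ∈ allL V) : 2 ≤ (pts V L).card := by
  classical
  rw [allL, Finset.mem_image] at hL
  obtain ⟨e, he, rfl⟩ := hL
  obtain ⟨h1, h2⟩ := Finset.mem_filter.1 he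
  rw [Finset.mem_product] at h1
  have hne : e.1 ≠ e.2 := fun hh => by rw [hh] at h2; exact lt_irrefl _ h2
  rw [← Finset.card_pair hne]
  apply Finset.card_le_card
  intro z hz
  rw [Finset.mem_insert, Finset.mem_singleton] at hz
  rcases hz with rfl | rfl
  · exact mem_pts.2 ⟨h1.1, onL_left e⟩
  · exact mem_pts.2 ⟨h1.2, onL_right h2⟩

/-- the number of collinear triples is at most the sum of cubes -/
lemma sum_colPairs_le (hV : ∀ p ∈ V, ∀ q ∈ V, p.1 = q.1 → p = q) :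
    ∑ v ∈ V, (colPairs V v).card ≤ ∑ L ∈ allL V, (pts V L).card ^ 3 := by
  classical
  rw [← Finset.card_sigma]
  have h1 : ∑ L ∈ allL V, (pts V L).card ^ 3 =
      ((allL V).sigma fun L => pts V L ×ˢ (pts V L ×ˢ pts V L)).card := by
    rw [Finset.card_sigma]
    apply Finset.sum_congr rfl
    intro L _
    rw [Finset.card_product, Finset.card_product]
    ring
  rw [h1]
  have hline : ∀ x : Pt × (Pt × Pt), ∃ L : ℝ × ℝ, Col x.1 x.2.1 x.2.2 →
      OnL L x.1 ∧ OnL L x.2.1 ∧ OnL L x.2.2 := by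
    intro x
    by_cases h : Col x.1 x.2.1 x.2.2
    · obtain ⟨L, hL⟩ := h
      exact ⟨L, fun _ => hL⟩
    · exact ⟨0, fun h' => absurd h' h⟩
  choose φ hφ using hline
  apply Finset.card_le_card_of_injOn
    (fun x : (_ : Pt) × (Pt × Pt) => (⟨φ (x.1, x.2), (x.1, x.2)⟩ : (_ : ℝ × ℝ) × (Pt × (Pt × Pt))))
  · rintro ⟨v, x, y⟩ hx
    rw [Finset.mem_coe, Finset.mem_sigma] at hx
    obtain ⟨hv, hxy⟩ := hx
    rw [colPairs, Finset.mem_filter, Finset.mem_product] at hxy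
    obtain ⟨⟨hxV, hyV⟩, hxv, -, -, hcol⟩ := hxy
    obtain ⟨k1, k2, k3⟩ := hφ (v, x, y) hcol
    rw [Finset.mem_coe, Finset.mem_sigma]
    refine ⟨mem_allL hV hv hxV (Ne.symm hxv) k1 k2, ?_⟩
    rw [Finset.mem_product, Finset.mem_product]
    exact ⟨mem_pts.2 ⟨hv, k1⟩, mem_pts.2 ⟨hxV, k2⟩, mem_pts.2 ⟨hyV, k3⟩⟩
  · rintro ⟨v, x⟩ _ ⟨v', x'⟩ _ h
    have h2 : ((v, x) : Pt × (Pt × Pt)) = (v', x') :=
      congrArg (fun z : (_ : ℝ × ℝ) × (Pt × (Pt × Pt)) => z.2) h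
    rw [Prod.mk.injEq] at h2
    obtain ⟨rfl, rfl⟩ := h2
    rfl

lemma cube_le (n : ℕ) (hn : 2 ≤ n) : (n : ℝ) ^ 3 ≤ 4 * ∑ k ∈ Finset.Icc 2 n, (k : ℝ) ^ 2 := by
  induction n, hn using Nat.le_induction with
  | base => norm_num
  | succ n hn ih =>
    rw [← Finset.insert_Icc_right_eq_Icc_add_one (by omega), Finset.sum_insert (by simp)]
    push_cast
    have : (0 : ℝ) ≤ n := Nat.cast_nonneg n
    nlinarith

lemma sum_inv_le (l : ℕ) (hl : 1 ≤ l) : ∑ k ∈ Finset.Icc 2 l, (1 : ℝ) / k ≤ Real.log l := by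
  have h1 := harmonic_le_one_add_log l
  rw [harmonic_eq_sum_Icc] at h1
  push_cast at h1
  have h2 : Finset.Icc 1 l = insert 1 (Finset.Icc 2 l) := by
    ext k
    simp only [Finset.mem_Icc, Finset.mem_insert]
    omega
  rw [h2, Finset.sum_insert (by simp)] at h1
  simp only [Nat.cast_one, inv_one] at h1
  simp only [one_div]
  linarith

lemma sum_id_le (l : ℕ) : ∑ k ∈ Finset.Icc 2 l, (k : ℝ) ≤ (l : ℝ) ^ 2 := by
  calc ∑ k ∈ Finset.Icc 2 l, (k : ℝ) ≤ ∑ _k ∈ Finset.Icc 2 l, (l : ℝ) := by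
        apply Finset.sum_le_sum
        intro k hk
        rw [Finset.mem_Icc] at hk
        exact_mod_cast hk.2
    _ = ((Finset.Icc 2 l).card : ℝ) * l := by rw [Finset.sum_const, nsmul_eq_mul]
    _ ≤ (l : ℝ) * l := by
        apply mul_le_mul_of_nonneg_right _ (Nat.cast_nonneg _)
        rw [Nat.card_Icc]
        exact_mod_cast (by omega : l + 1 - 2 ≤ l)
    _ = _ := by ring

/-- the sum of the cubes of the line sizes -/
lemma sum_cubes_le (hV : ∀ p ∈ V, ∀ q ∈ V, p.1 = q.1 → p = q) {l : ℕ} (hl1 : 1 ≤ l)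
    (hl : ∀ L, (pts V L).card ≤ l) :
    ∑ L ∈ allL V, ((pts V L).card : ℝ) ^ 3 ≤
      48 * V.card * (l : ℝ) ^ 2 + 2304 * (V.card : ℝ) ^ 2 * Real.log l := by
  classical
  have h1 : ∑ L ∈ allL V, ((pts V L).card : ℝ) ^ 3 ≤
      ∑ L ∈ allL V, ∑ k ∈ Finset.Icc 2 l, if k ≤ (pts V L).card then 4 * (k : ℝ) ^ 2 else 0 := by
    apply Finset.sum_le_sum
    intro L hL
    refine (cube_le _ (two_le_pts hL)).trans (le_of_eq ?_)
    rw [← Finset.sum_filter, Finset.mul_sum]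
    apply Finset.sum_congr _ fun _ _ => rfl
    ext k
    simp only [Finset.mem_filter, Finset.mem_Icc]
    have := hl L
    omega
  rw [Finset.sum_comm] at h1
  have h2 : ∀ k ∈ Finset.Icc 2 l, (∑ L ∈ allL V, if k ≤ (pts V L).card then 4 * (k : ℝ) ^ 2 else 0)
      ≤ 48 * V.card * (k : ℝ) + 2304 * (V.card : ℝ) ^ 2 * (1 / k) := by
    intro k hk
    rw [Finset.mem_Icc] at hk
    rw [← Finset.sum_filter, Finset.sum_const, nsmul_eq_mul]
    have h3 := rich_lines (Ls := (allL V).filter fun L => k ≤ (pts V L).card) hV hk.1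
      (fun L hL => (Finset.mem_filter.1 hL).2)
    have h4 : (((allL V).filter fun L => k ≤ (pts V L).card).card : ℝ) * (k : ℝ) ^ 3 ≤
        12 * V.card * (k : ℝ) ^ 2 + 576 * (V.card : ℝ) ^ 2 := by exact_mod_cast h3
    have hk0 : (0 : ℝ) < k := by
      have : 0 < k := by omega
      exact_mod_cast this
    have h5 : (((allL V).filter fun L => k ≤ (pts V L).card).card : ℝ) * (4 * (k : ℝ) ^ 2) =
        4 * ((((allL V).filter fun L => k ≤ (pts V L).card).card : ℝ) * (k : ℝ) ^ 3) / k := by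
      field_simp
    rw [h5]
    have h6 : 48 * V.card * (k : ℝ) + 2304 * (V.card : ℝ) ^ 2 * (1 / k) =
        4 * (12 * V.card * (k : ℝ) ^ 2 + 576 * (V.card : ℝ) ^ 2) / k := by
      field_simp
      ring
    rw [h6]
    gcongr
  refine h1.trans ((Finset.sum_le_sum h2).trans ?_)
  rw [Finset.sum_add_distrib, ← Finset.mul_sum, ← Finset.mul_sum]
  have h3 := sum_id_le l
  have h4 := sum_inv_le l hl1
  gcongr

/-- a point in few collinear triples -/
theorem exists_few (hV : ∀ p ∈ V, ∀ q ∈ V, p.1 = q.1 → p = q) (hne : V.Nonempty) {l : ℕ}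
    (hl1 : 1 ≤ l) (hl : ∀ L, (pts V L).card ≤ l) :
    ∃ v ∈ V, ((colPairs V v).card : ℝ) ≤ 48 * (l : ℝ) ^ 2 + 2304 * V.card * Real.log l := by
  by_contra hcon
  push Not at hcon
  have h1 := sum_colPairs_le hV
  have h1' : ∑ v ∈ V, ((colPairs V v).card : ℝ) ≤ ∑ L ∈ allL V, ((pts V L).card : ℝ) ^ 3 := by
    exact_mod_cast h1
  have h2 := sum_cubes_le hV hl1 hl
  have h3 : ∑ _v ∈ V, (48 * (l : ℝ) ^ 2 + 2304 * V.card * Real.log l) <
      ∑ v ∈ V, ((colPairs V v).card : ℝ) := Finset.sum_lt_sum_of_nonempty hne hcon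
  rw [Finset.sum_const, nsmul_eq_mul] at h3
  have h4 : (V.card : ℝ) * (48 * (l : ℝ) ^ 2 + 2304 * V.card * Real.log l) =
      48 * V.card * (l : ℝ) ^ 2 + 2304 * (V.card : ℝ) ^ 2 * Real.log l := by ring
  linarith

end Pool.Agent.Helper65.ST
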