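import Mathlib
import Pool.Agent.Helper65.ST.Main

set_option autoImplicit false

/-!
Szemerédi–Trotter consequence in `EuclideanSpace ℝ (Fin 2)`: a finite set of at most `s ^ 2` points
with at most `s` on a line has a point lying in `O(s ^ 2 log s)` collinear triples.
-/

namespace Pool.Agent.Helper65.ST

/-- shear -/
noncomputable def shear (t : ℝ) (p : EuclideanSpace ℝ (Fin 2)) : Pt := (p 0 + t * p 1, p 1)

lemma ext2 {p q : EuclideanSpace ℝ (Fin 2)} (h0 : p 0 = q 0) (h1 : p 1 = q 1) : p = q := by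
  ext i
  fin_cases i
  · exact h0
  · exact h1

lemma exists_shear (U : Finset (EuclideanSpace ℝ (Fin 2))) :
    ∃ t : ℝ, ∀ p ∈ U, ∀ q ∈ U, (shear t p).1 = (shear t q).1 → p = q := by
  classical
  obtain ⟨t, ht⟩ := Infinite.exists_notMem_finset
    ((U ×ˢ U).image fun e => (e.2 0 - e.1 0) / (e.1 1 - e.2 1))
  refine ⟨t, fun p hp q hq h => ?_⟩
  simp only [shear] at h
  by_cases h1 : p 1 = q 1
  · rw [h1] at h
    exact ext2 (by linarith) h1
  · exfalso
    apply ht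
    rw [Finset.mem_image]
    refine ⟨(p, q), Finset.mem_product.2 ⟨hp, hq⟩, ?_⟩
    have h2 : p 1 - q 1 ≠ 0 := sub_ne_zero.2 h1
    simp only
    rw [div_eq_iff h2]
    linarith

lemma collinear_of_onL (t : ℝ) (L : ℝ × ℝ) (T : Set (EuclideanSpace ℝ (Fin 2)))
    (hT : ∀ p ∈ T, OnL L (shear t p)) : Collinear ℝ T := by
  rcases T.eq_empty_or_nonempty with rfl | ⟨p₀, hp₀⟩
  · exact collinear_empty ℝ _
  rw [collinear_iff_of_mem hp₀]
  refine ⟨!₂[1 - L.1 * t, L.1], fun p hp => ?_⟩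
  have h1 := hT p hp
  have h2 := hT p₀ hp₀
  simp only [OnL, shear] at h1 h2
  by_cases hm : L.1 = 0
  · refine ⟨p 0 - p₀ 0, ext2 ?_ ?_⟩
    · simp [hm]
    · simp [hm] at h1 h2 ⊢
      linarith
  · refine ⟨(p 1 - p₀ 1) / L.1, ext2 ?_ ?_⟩
    · simp
      field_simp
      linarith
    · simp
      field_simp
      ring

lemma col_of_collinear {t : ℝ} {v x y : EuclideanSpace ℝ (Fin 2)}
    (hne : (shear t v).1 ≠ (shear t x).1) (h : Collinear ℝ ({v, x, y} : Set _)) :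
    Col (shear t v) (shear t x) (shear t y) := by
  rw [collinear_iff_of_mem (p₀ := v) (by simp)] at h
  obtain ⟨d, hd⟩ := h
  obtain ⟨r, hr⟩ := hd x (by simp)
  obtain ⟨r', hr'⟩ := hd y (by simp)
  have hx0 : x 0 = r * d 0 + v 0 := by rw [hr]; simp
  have hx1 : x 1 = r * d 1 + v 1 := by rw [hr]; simp
  have hy0 : y 0 = r' * d 0 + v 0 := by rw [hr']; simp
  have hy1 : y 1 = r' * d 1 + v 1 := by rw [hr']; simp
  have hne' : r * (d 0 + t * d 1) ≠ 0 := by
    intro h0
    apply hne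
    simp only [shear]
    rw [hx0, hx1]
    linarith
  have hr0 : r ≠ 0 := left_ne_zero_of_mul hne'
  have hd0 : d 0 + t * d 1 ≠ 0 := right_ne_zero_of_mul hne'
  refine ⟨(d 1 / (d 0 + t * d 1), v 1 - d 1 / (d 0 + t * d 1) * (v 0 + t * v 1)), ?_, ?_, ?_⟩
  · simp only [OnL, shear]
    ring
  · simp only [OnL, shear]
    rw [hx0, hx1]
    have hk := div_mul_cancel₀ (d 1) hd0
    linear_combination (-r) * hk
  · simp only [OnL, shear]
    rw [hy0, hy1]
    have hk := div_mul_cancel₀ (d 1) hd0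
    linear_combination (-r') * hk

open Classical in
/-- **Szemerédi–Trotter consequence.** -/
theorem st_degenerate : ∃ A : ℝ, 0 < A ∧ ∀ s : ℝ, 2 ≤ s →
    ∀ U : Finset (EuclideanSpace ℝ (Fin 2)), U.Nonempty → (U.card : ℝ) ≤ s ^ 2 →
    (∀ T, T ⊆ U → Collinear ℝ (T : Set (EuclideanSpace ℝ (Fin 2))) → (T.card : ℝ) ≤ s) →
    ∃ v ∈ U, (((U ×ˢ U).filter (fun p => p.1 ≠ v ∧ p.2 ≠ v ∧ p.1 ≠ p.2 ∧
      Collinear ℝ ({v, p.1, p.2} : Set (EuclideanSpace ℝ (Fin 2))))).card : ℝ)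
        ≤ A * s ^ 2 * Real.log s := by
  have hlog2 : 0 < Real.log 2 := Real.log_pos (by norm_num)
  refine ⟨48 / Real.log 2 + 2304, by positivity, fun s hs U hU hcard hcol => ?_⟩
  obtain ⟨t, ht⟩ := exists_shear U
  have hV : ∀ p ∈ U.image (shear t), ∀ q ∈ U.image (shear t), p.1 = q.1 → p = q := by
    intro p hp q hq h
    rw [Finset.mem_image] at hp hq
    obtain ⟨p', hp', rfl⟩ := hp
    obtain ⟨q', hq', rfl⟩ := hq
    rw [ht p' hp' q' hq' h]
  have hinj : Set.InjOn (shear t) (U : Set (EuclideanSpace ℝ (Fin 2))) := fun p hp q hq h =>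
    ht p hp q hq (congrArg Prod.fst h)
  have hl1 : 1 ≤ ⌊s⌋₊ := Nat.le_floor (by push_cast; linarith)
  have hl : ∀ L, (pts (U.image (shear t)) L).card ≤ ⌊s⌋₊ := by
    intro L
    have h1 : pts (U.image (shear t)) L ⊆ (U.filter fun p => OnL L (shear t p)).image (shear t) := by
      intro z hz
      rw [mem_pts, Finset.mem_image] at hz
      obtain ⟨⟨p, hp, rfl⟩, hz⟩ := hz
      exact Finset.mem_image_of_mem _ (Finset.mem_filter.2 ⟨hp, hz⟩)
    have h2 := (Finset.card_le_card h1).trans Finset.card_image_le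
    refine h2.trans (Nat.le_floor ?_)
    apply hcol _ (Finset.filter_subset _ _)
    apply collinear_of_onL t L
    intro p hp
    exact (Finset.mem_filter.1 (Finset.mem_coe.1 hp)).2
  obtain ⟨v', hv', hfew⟩ := exists_few hV (hU.image _) hl1 hl
  rw [Finset.mem_image] at hv'
  obtain ⟨v, hv, rfl⟩ := hv'
  refine ⟨v, hv, ?_⟩
  have h1 : ((U ×ˢ U).filter (fun p => p.1 ≠ v ∧ p.2 ≠ v ∧ p.1 ≠ p.2 ∧
      Collinear ℝ ({v, p.1, p.2} : Set (EuclideanSpace ℝ (Fin 2))))).card ≤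
      (colPairs (U.image (shear t)) (shear t v)).card := by
    apply Finset.card_le_card_of_injOn (fun p => (shear t p.1, shear t p.2))
    · rintro ⟨x, y⟩ hxy
      rw [Finset.mem_coe, Finset.mem_filter, Finset.mem_product] at hxy
      obtain ⟨⟨hx, hy⟩, hxv, hyv, hne, hc⟩ := hxy
      simp only at hx hy hxv hyv hne hc
      rw [Finset.mem_coe, colPairs, Finset.mem_filter, Finset.mem_product]
      refine ⟨⟨Finset.mem_image_of_mem _ hx, Finset.mem_image_of_mem _ hy⟩,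
        fun h => hxv (hinj hx hv h), fun h => hyv (hinj hy hv h), fun h => hne (hinj hx hy h), ?_⟩
      exact col_of_collinear (fun h => hxv (ht v hv x hx h).symm) hc
    · rintro ⟨x, y⟩ hxy ⟨x', y'⟩ hxy' h
      rw [Finset.mem_coe, Finset.mem_filter, Finset.mem_product] at hxy hxy'
      simp only [Prod.mk.injEq] at h
      have e1 : x = x' := hinj hxy.1.1 hxy'.1.1 h.1
      have e2 : y = y' := hinj hxy.1.2 hxy'.1.2 h.2
      rw [e1, e2]
  have h2 : ((⌊s⌋₊ : ℕ) : ℝ) ≤ s := Nat.floor_le (by linarith)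
  have h3 : (((U.image (shear t)).card : ℕ) : ℝ) ≤ s ^ 2 :=
    le_trans (by exact_mod_cast Finset.card_image_le) hcard
  have h4 : Real.log ((⌊s⌋₊ : ℕ) : ℝ) ≤ Real.log s :=
    Real.log_le_log (by exact_mod_cast hl1) h2
  have h5 : 0 ≤ Real.log ((⌊s⌋₊ : ℕ) : ℝ) := Real.log_natCast_nonneg _
  have h6 : Real.log 2 ≤ Real.log s := Real.log_le_log (by norm_num) hs
  calc (((U ×ˢ U).filter (fun p => p.1 ≠ v ∧ p.2 ≠ v ∧ p.1 ≠ p.2 ∧
      Collinear ℝ ({v, p.1, p.2} : Set (EuclideanSpace ℝ (Fin 2))))).card : ℝ)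
      ≤ ((colPairs (U.image (shear t)) (shear t v)).card : ℝ) := by exact_mod_cast h1
    _ ≤ _ := hfew
    _ ≤ 48 * s ^ 2 + 2304 * s ^ 2 * Real.log s := by gcongr
    _ ≤ (48 / Real.log 2 + 2304) * s ^ 2 * Real.log s := by
        have h7 : 48 * s ^ 2 ≤ 48 / Real.log 2 * s ^ 2 * Real.log s := by
          have h8 : 48 / Real.log 2 * s ^ 2 * Real.log s = 48 * s ^ 2 * (Real.log s / Real.log 2) := by
            field_simp
          rw [h8]
          have h9 : 1 ≤ Real.log s / Real.log 2 := by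
            rw [le_div_iff₀ hlog2]; linarith
          have h10 : 0 ≤ 48 * s ^ 2 := by positivity
          nlinarith
        linarith

end Pool.Agent.Helper65.ST
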