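import Pool.Agent.Helper90.ST.Defs

/-!
# Piece NUM of the proof of S09391
-/

set_option autoImplicit false

namespace Pool.Agent.Helper90.ST

namespace NUM

open Finset

open Classical in
/-- the main estimate -/
lemma star {p : ℕ} (hp : 2 ≤ p) {ι : Type} [Fintype ι] (ν g : ι → ℕ) (κ : ℝ) (hκ : 0 < κ)
    (hg : ∀ i, (g i : ℝ) = κ * (p : ℝ) ^ ν i) (μ : ℕ) (hμ : 1 ≤ μ)
    (h3 : (∑ i ∈ Finset.univ.filter (fun i => ν i < μ),
      (1 : ℝ) / (1 + g i)) ≤ ((p : ℝ) ^ μ - 1) / (p - 1))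
    (h4 : 4 ≤ κ * (p : ℝ) ^ μ) :
    (Fintype.card ι : ℝ) * (p : ℝ) ^ μ - ∑ i, (p : ℝ) ^ ν i ≤
      (p : ℝ) ^ (μ - 1) * (1 + κ * (p : ℝ) ^ (μ - 1)) * ((p : ℝ) ^ μ - 1) := by
  have hp' : (2 : ℝ) ≤ p := by exact_mod_cast hp
  have hp1 : (1 : ℝ) ≤ p := by linarith
  set P : ℝ := (p : ℝ) ^ μ with hP
  set D : ℝ := (p : ℝ) ^ (μ - 1) with hD
  have hPD : P = p * D := by
    rw [hP, hD, ← pow_succ']
    congr 1
    omega
  have hD1 : 1 ≤ D := one_le_pow₀ hp1
  have hterm : ∀ i ∈ univ.filter (fun i => ν i < μ), P - (p : ℝ) ^ ν i ≤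
      ((P - D) * (1 + κ * D)) * ((1 : ℝ) / (1 + g i)) := by
    intro i hi
    have hi' : ν i < μ := (mem_filter.mp hi).2
    set d : ℝ := (p : ℝ) ^ ν i with hd
    have hd1 : 1 ≤ d := one_le_pow₀ hp1
    have hpos : 0 < 1 + (g i : ℝ) := by positivity
    rw [mul_one_div, le_div_iff₀ hpos, hg i]
    have hdiff : (P - D) * (1 + κ * D) - (P - d) * (1 + κ * d) =
        (D - d) * (κ * (P - D - d) - 1) := by ring
    have hnn : 0 ≤ (D - d) * (κ * (P - D - d) - 1) := by
      rcases Nat.lt_or_ge (ν i) (μ - 1) with h | h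
      · have hdD : p * d ≤ D := by
          rw [hd, hD, ← pow_succ']
          exact pow_le_pow_right₀ hp1 (by omega)
        have hdD' : d ≤ D := by nlinarith
        refine mul_nonneg (by linarith) ?_
        have h5 : P / 4 ≤ P - D - d := by
          have h6 : 2 * D ≤ P := by rw [hPD]; nlinarith
          have h7 : 2 * d ≤ D := by nlinarith
          linarith
        have h8 : κ * (P / 4) ≤ κ * (P - D - d) := mul_le_mul_of_nonneg_left h5 hκ.le
        linarith
      · have hνμ : ν i = μ - 1 := by omega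
        have : D - d = 0 := by rw [hd, hD, hνμ, sub_self]
        rw [this, zero_mul]
    linarith
  have hall : (Fintype.card ι : ℝ) * P - ∑ i, (p : ℝ) ^ ν i ≤
      ∑ i ∈ univ.filter (fun i => ν i < μ), (P - (p : ℝ) ^ ν i) := by
    have h5 : (Fintype.card ι : ℝ) * P - ∑ i, (p : ℝ) ^ ν i = ∑ i, (P - (p : ℝ) ^ ν i) := by
      rw [sum_sub_distrib, sum_const, card_univ, nsmul_eq_mul]
    rw [h5, sum_filter]
    refine sum_le_sum fun i _ => ?_
    split_ifs with h
    · exact le_rfl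
    · have : P ≤ (p : ℝ) ^ ν i := pow_le_pow_right₀ hp1 (by omega)
      linarith
  have hC : 0 ≤ (P - D) * (1 + κ * D) := by
    have : D ≤ P := by rw [hPD]; nlinarith
    have h5 : 0 ≤ κ * D := by positivity
    exact mul_nonneg (by linarith) (by linarith)
  calc (Fintype.card ι : ℝ) * P - ∑ i, (p : ℝ) ^ ν i
      ≤ ∑ i ∈ univ.filter (fun i => ν i < μ), (P - (p : ℝ) ^ ν i) := hall
    _ ≤ ∑ i ∈ univ.filter (fun i => ν i < μ), ((P - D) * (1 + κ * D)) * ((1 : ℝ) / (1 + g i)) :=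
        sum_le_sum hterm
    _ = ((P - D) * (1 + κ * D)) * ∑ i ∈ univ.filter (fun i => ν i < μ), (1 : ℝ) / (1 + g i) := by
        rw [mul_sum]
    _ ≤ ((P - D) * (1 + κ * D)) * ((P - 1) / (p - 1)) := mul_le_mul_of_nonneg_left h3 hC
    _ = D * (1 + κ * D) * (P - 1) := by
        have h6 : (p : ℝ) - 1 ≠ 0 := by linarith
        rw [hPD]
        field_simp

lemma caseA {p u y t : ℝ} (hp : 2 ≤ p) (hy : p ≤ y) (hyu : p * y ≤ u) (ht : u ^ 3 ≤ t)
    (h : (t + 1) * (p * y) - (y * t + t) ≤ y * (1 + y) * (p * u - 1)) : False := by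
  have hu : 4 ≤ u := by nlinarith
  have h1 : y * (1 + y) * (p * u - 1) ≤ 3 / 2 * y * u ^ 2 := by
    have h2 : 1 + y ≤ 3 / 2 * y := by linarith
    have h3 : (1 + y) * (p * u - 1) ≤ 3 / 2 * u ^ 2 := by
      have h4 : (1 + y) * (p * u - 1) ≤ (3 / 2 * y) * (p * u) := by
        have h5 : 0 ≤ p * u - 1 := by nlinarith
        calc (1 + y) * (p * u - 1) ≤ (3 / 2 * y) * (p * u - 1) :=
              mul_le_mul_of_nonneg_right h2 h5
          _ ≤ (3 / 2 * y) * (p * u) := by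
              apply mul_le_mul_of_nonneg_left _ (by linarith)
              linarith
      have h6 : (3 / 2 * y) * (p * u) = 3 / 2 * ((p * y) * u) := by ring
      have h7 : (p * y) * u ≤ u * u := mul_le_mul_of_nonneg_right hyu (by linarith)
      nlinarith
    calc y * (1 + y) * (p * u - 1) = y * ((1 + y) * (p * u - 1)) := by ring
      _ ≤ y * (3 / 2 * u ^ 2) := mul_le_mul_of_nonneg_left h3 (by linarith)
      _ = 3 / 2 * y * u ^ 2 := by ring
  have ht0 : 0 < t := lt_of_lt_of_le (by positivity) ht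
  have h2 : t * (y / 2) < (t + 1) * (p * y) - (y * t + t) := by
    have h3 : (t + 1) * (p * y) - (y * t + t) = t * ((p - 1) * y - 1) + p * y := by ring
    have h4 : y / 2 ≤ (p - 1) * y - 1 := by nlinarith
    have h5 : t * (y / 2) ≤ t * ((p - 1) * y - 1) := mul_le_mul_of_nonneg_left h4 ht0.le
    nlinarith
  have h3 : 3 / 2 * y * u ^ 2 ≤ t * (y / 2) := by
    have h4 : 3 * u ^ 2 ≤ t := by nlinarith [sq_nonneg u]
    nlinarith
  linarith

lemma caseC1 {p q u t : ℝ} (hp : 3 ≤ p) (hq : 1 ≤ q) (hqu : q ≤ u) (hu : 3 ≤ u) (ht : u ^ 3 ≤ t)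
    (h : (t + 1) * (p * q) - (t * q + t) ≤ q * (1 + u) * (p * q - 1)) : False := by
  have h1 : (t + 1) * (p * q) - (t * q + t) = t * ((p - 1) * q - 1) + p * q := by ring
  have h2 : u ^ 3 * ((p - 1) * q - 1) ≤ t * ((p - 1) * q - 1) :=
    mul_le_mul_of_nonneg_right ht (by nlinarith)
  have hf1 : 0 < u ^ 3 * (p - 2) - u * (p - 1) + 1 := by
    have h3 : 9 * u ≤ u ^ 3 := by nlinarith [sq_nonneg u]
    nlinarith
  have hfu : 0 < (p - 1) * u ^ 3 - (p + 1) * u ^ 2 - (p - 1) * u + p + 1 := by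
    have h3 : 3 * u ^ 2 ≤ u ^ 3 := by nlinarith [sq_nonneg u]
    have h4 : 3 * u ≤ u ^ 2 := by nlinarith
    nlinarith
  have key : (u - 1) * (u ^ 3 * ((p - 1) * q - 1) + p * q - q * (1 + u) * (p * q - 1)) =
      (u - q) * (u ^ 3 * (p - 2) - u * (p - 1) + 1) +
      (q - 1) * (u * ((p - 1) * u ^ 3 - (p + 1) * u ^ 2 - (p - 1) * u + p + 1)) +
      p * (1 + u) * ((q - 1) * (u - q)) * (u - 1) := by ring
  have hle : u ^ 3 * ((p - 1) * q - 1) + p * q - q * (1 + u) * (p * q - 1) ≤ 0 := by linarith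
  have hneg : (u - 1) * (u ^ 3 * ((p - 1) * q - 1) + p * q - q * (1 + u) * (p * q - 1)) ≤ 0 :=
    mul_nonpos_of_nonneg_of_nonpos (by linarith) hle
  have ha : 0 ≤ (u - q) * (u ^ 3 * (p - 2) - u * (p - 1) + 1) := mul_nonneg (by linarith) hf1.le
  have hb : 0 ≤ (q - 1) * (u * ((p - 1) * u ^ 3 - (p + 1) * u ^ 2 - (p - 1) * u + p + 1)) :=
    mul_nonneg (by linarith) (mul_nonneg (by linarith) hfu.le)
  have hc : 0 ≤ p * (1 + u) * ((q - 1) * (u - q)) * (u - 1) := by
    have : 0 ≤ (q - 1) * (u - q) := mul_nonneg (by linarith) (by linarith)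
    have h5 : 0 ≤ u - 1 := by linarith
    have h6 : 0 ≤ p * (1 + u) := by nlinarith
    positivity
  rcases lt_or_ge q u with hlt | hge
  · have : 0 < (u - q) * (u ^ 3 * (p - 2) - u * (p - 1) + 1) := mul_pos (by linarith) hf1
    linarith
  · have : 0 < (q - 1) * (u * ((p - 1) * u ^ 3 - (p + 1) * u ^ 2 - (p - 1) * u + p + 1)) :=
      mul_pos (by linarith) (mul_pos (by linarith) hfu)
    linarith

lemma caseC2 {q u t : ℝ} (hq : 2 ≤ q) (hqu : q ≤ u) (hu : 4 ≤ u) (ht : u ^ 3 ≤ t)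
    (h : (t + 1) * (2 * q) - (t * q + t) ≤ q * (1 + u) * (2 * q - 1)) : False := by
  have h1 : (t + 1) * (2 * q) - (t * q + t) = t * (q - 1) + 2 * q := by ring
  have h2 : u ^ 3 * (q - 1) ≤ t * (q - 1) := mul_le_mul_of_nonneg_right ht (by linarith)
  have hf1 : 0 < u ^ 3 - 6 * u - 2 := by nlinarith [sq_nonneg u]
  have hfu : 0 < (u - 3) * (u ^ 2 - 1) := mul_pos (by linarith) (by nlinarith)
  have key : (u - 2) * (u ^ 3 * (q - 1) + 2 * q - q * (1 + u) * (2 * q - 1)) =
      (u - q) * (u ^ 3 - 6 * u - 2) + (q - 2) * (u * ((u - 3) * (u ^ 2 - 1))) +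
      2 * (1 + u) * ((q - 2) * (u - q)) * (u - 2) := by ring
  have hle : u ^ 3 * (q - 1) + 2 * q - q * (1 + u) * (2 * q - 1) ≤ 0 := by linarith
  have hneg : (u - 2) * (u ^ 3 * (q - 1) + 2 * q - q * (1 + u) * (2 * q - 1)) ≤ 0 :=
    mul_nonpos_of_nonneg_of_nonpos (by linarith) hle
  have ha : 0 ≤ (u - q) * (u ^ 3 - 6 * u - 2) := mul_nonneg (by linarith) hf1.le
  have hb : 0 ≤ (q - 2) * (u * ((u - 3) * (u ^ 2 - 1))) :=
    mul_nonneg (by linarith) (mul_nonneg (by linarith) hfu.le)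
  have hc : 0 ≤ 2 * (1 + u) * ((q - 2) * (u - q)) * (u - 2) := by
    have : 0 ≤ (q - 2) * (u - q) := mul_nonneg (by linarith) (by linarith)
    have h5 : 0 ≤ u - 2 := by linarith
    have h6 : 0 ≤ 2 * (1 + u) := by linarith
    positivity
  rcases lt_or_ge q u with hlt | hge
  · have : 0 < (u - q) * (u ^ 3 - 6 * u - 2) := mul_pos (by linarith) hf1
    linarith
  · have : 0 < (q - 2) * (u * ((u - 3) * (u ^ 2 - 1))) :=
      mul_pos (by linarith) (mul_pos (by linarith) hfu)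
    linarith

end NUM

open Classical in
theorem numeric {p e a k w : ℕ} (hp : p.Prime) (he : 1 ≤ e) (ha : 3 ≤ a) (hk : 1 ≤ k)
    (hexc : ¬ (p = 2 ∧ e = 1 ∧ a = 3)) {ι : Type} [Fintype ι]
    (hι : Fintype.card ι = (p ^ e) ^ a + 1) (ν g : ι → ℕ)
    (hg : ∀ i, g i * p ^ k = (p ^ e) ^ (a + 1) * p ^ ν i) (hgp : ∀ i, p ≤ g i)
    (h1 : ∑ i, (p ^ ν i - 1) ≤ p ^ k - 1)
    (hw : w * p ^ k = ((p ^ e) ^ (a + 1)) ^ 2) (h2 : ∑ i, (g i - 1) ≤ w - 1)
    (h3 : ∀ μ, 1 ≤ μ → μ ≤ k → (∑ i ∈ Finset.univ.filter (fun i => ν i < μ),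
      (1 : ℝ) / (1 + g i)) ≤ ((p : ℝ) ^ μ - 1) / (p - 1))
    (h4 : (p ^ e) ^ a ≤ p ^ k) : False := by
  have hp2 : 2 ≤ p := hp.two_le
  have hp1 : 1 < p := hp.one_lt
  have hp' : (2 : ℝ) ≤ p := by exact_mod_cast hp2
  have hp1' : (1 : ℝ) ≤ p := by linarith
  set u : ℝ := (p : ℝ) ^ e with hu
  set t : ℝ := u ^ a with ht
  set K : ℝ := (p : ℝ) ^ k with hK
  have hpu : (p : ℝ) ≤ u := by
    calc (p : ℝ) = (p : ℝ) ^ 1 := (pow_one _).symm
      _ ≤ (p : ℝ) ^ e := pow_le_pow_right₀ hp1' he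
  have hu1 : 1 ≤ u := by linarith
  have hu0 : 0 < u := by linarith
  have ht3 : u ^ 3 ≤ t := pow_le_pow_right₀ hu1 ha
  have hpu4 : 4 ≤ (p : ℝ) * u := by
    calc (4 : ℝ) = 2 * 2 := by norm_num
      _ ≤ p * u := mul_le_mul hp' (hp'.trans hpu) (by norm_num) (by linarith)
  have ht0 : 0 < t := by positivity
  have hK0 : 0 < K := by positivity
  set κ : ℝ := t * u / K with hκ
  have hκ0 : 0 < κ := by positivity
  have hgκ : ∀ i, (g i : ℝ) = κ * (p : ℝ) ^ ν i := by
    intro i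
    have h5 : (g i : ℝ) * K = t * u * (p : ℝ) ^ ν i := by
      have := congrArg (Nat.cast (R := ℝ)) (hg i)
      push_cast at this
      rw [hK, this, ht, pow_succ]
    rw [hκ, div_mul_eq_mul_div, eq_div_iff hK0.ne']
    exact h5
  have hcard : (Fintype.card ι : ℝ) = t + 1 := by
    rw [hι]
    push_cast
    rfl
  have hw1 : 1 ≤ w := by
    rcases Nat.eq_zero_or_pos w with h | h
    · rw [h, zero_mul] at hw
      have : 0 < ((p ^ e) ^ (a + 1)) ^ 2 := by positivity
      omega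
    · exact h
  have hwK : (w : ℝ) * K = (t * u) ^ 2 := by
    have := congrArg (Nat.cast (R := ℝ)) hw
    push_cast at this
    rw [hK, this, ht, hu, pow_succ (_) a]
  have htp : t = (p : ℝ) ^ (e * a) := by rw [ht, hu, ← pow_mul]
  have hsum1 : ∑ i, (p : ℝ) ^ ν i ≤ K + t := by
    have h5 : ((∑ i, (p ^ ν i - 1) : ℕ) : ℝ) ≤ ((p ^ k - 1 : ℕ) : ℝ) := by exact_mod_cast h1
    rw [Nat.cast_sum, Nat.cast_sub (Nat.one_le_pow _ _ (by omega))] at h5
    have h6 : ∑ i, ((p ^ ν i - 1 : ℕ) : ℝ) = ∑ i, (p : ℝ) ^ ν i - (t + 1) := by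
      rw [← hcard]
      have h7 : ∀ i, ((p ^ ν i - 1 : ℕ) : ℝ) = (p : ℝ) ^ ν i - 1 := by
        intro i
        rw [Nat.cast_sub (Nat.one_le_pow _ _ (by omega))]
        push_cast
        rfl
      simp only [h7]
      rw [Finset.sum_sub_distrib, Finset.sum_const, Finset.card_univ, nsmul_eq_mul, mul_one]
    rw [h6] at h5
    push_cast at h5
    linarith
  have hsum2' : ∑ i, (g i : ℝ) - (t + 1) ≤ w - 1 := by
    have h5 : ((∑ i, (g i - 1) : ℕ) : ℝ) ≤ ((w - 1 : ℕ) : ℝ) := by exact_mod_cast h2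
    rw [Nat.cast_sum, Nat.cast_sub hw1] at h5
    have h6 : ∑ i, ((g i - 1 : ℕ) : ℝ) = ∑ i, (g i : ℝ) - (t + 1) := by
      rw [← hcard]
      have h7 : ∀ i, ((g i - 1 : ℕ) : ℝ) = (g i : ℝ) - 1 := by
        intro i
        rw [Nat.cast_sub (le_trans hp1.le (hgp i))]
        push_cast
        rfl
      simp only [h7]
      rw [Finset.sum_sub_distrib, Finset.sum_const, Finset.card_univ, nsmul_eq_mul, mul_one]
    rw [h6] at h5
    push_cast at h5
    linarith
  rcases Nat.lt_or_ge (e * (a + 1)) k with hA | hB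
  · -- case A
    set y : ℝ := κ * u with hy
    have hwy : (w : ℝ) = y * t := by
      rw [hy, hκ]
      field_simp
      rw [hwK]
      ring
    have hylow : (p : ℝ) - 1 < y := by
      have h5 : (t + 1) * p ≤ ∑ i, (g i : ℝ) := by
        rw [← hcard]
        calc (Fintype.card ι : ℝ) * p = ∑ _i : ι, (p : ℝ) := by
              rw [Finset.sum_const, Finset.card_univ, nsmul_eq_mul]
          _ ≤ ∑ i, (g i : ℝ) := Finset.sum_le_sum fun i _ => by exact_mod_cast hgp i
      rw [hwy] at hsum2'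
      have h6 : t * ((p : ℝ) - 1) < t * y := by linarith
      exact lt_of_mul_lt_mul_left h6 ht0.le
    have hyK : y * K = (p : ℝ) ^ (e * a + 2 * e) := by
      rw [hy, hκ, pow_add, ← htp, two_mul, pow_add, ← hu]
      field_simp
    have hkup : k < e * a + 2 * e := by
      by_contra hcon
      have h5 : (p : ℝ) ^ (e * a + 2 * e) ≤ K := pow_le_pow_right₀ hp1' (by omega)
      rw [← hyK] at h5
      have h6 : y ≤ 1 := by
        by_contra h7
        push Not at h7
        have h8 : 1 * K < y * K := mul_lt_mul_of_pos_right h7 hK0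
        linarith
      linarith
    obtain ⟨j, hj⟩ : ∃ j, k + j = e * a + 2 * e := ⟨e * a + 2 * e - k, by omega⟩
    have hyj : y = (p : ℝ) ^ j := by
      have h5 : y * K = (p : ℝ) ^ j * K := by
        rw [hyK, ← hj, hK, ← pow_add, add_comm]
      exact mul_right_cancel₀ hK0.ne' h5
    have hyp : (p : ℝ) ≤ y := by
      rw [hyj]
      calc (p : ℝ) = (p : ℝ) ^ 1 := (pow_one _).symm
        _ ≤ (p : ℝ) ^ j := pow_le_pow_right₀ hp1' (by omega)
    have hyu : p * y ≤ u := by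
      rw [hyj, ← pow_succ', hu]
      refine pow_le_pow_right₀ hp1' ?_
      have : e * (a + 1) = e * a + e := by ring
      omega
    have hμk : e + 1 ≤ k := by
      have h5 : e * 1 ≤ e * (a + 1) := Nat.mul_le_mul_left e (by omega)
      omega
    have hP : (p : ℝ) ^ (e + 1) = p * u := by rw [pow_succ', hu]
    have hκP : κ * (p : ℝ) ^ (e + 1) = p * y := by
      rw [hP, hy]
      ring
    have hst := NUM.star hp2 ν g κ hκ0 hgκ (e + 1) (by omega) (h3 _ (by omega) hμk) (by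
      rw [hκP]
      calc (4 : ℝ) = 2 * 2 := by norm_num
        _ ≤ p * y := mul_le_mul hp' (hp'.trans hyp) (by norm_num) (by linarith))
    rw [Nat.add_sub_cancel, hcard, hP, ← hu] at hst
    have h5 : κ * ((t + 1) * (p * u) - ∑ i, (p : ℝ) ^ ν i) ≤
        κ * (u * (1 + κ * u) * (p * u - 1)) := mul_le_mul_of_nonneg_left hst hκ0.le
    have h6 : κ * ∑ i, (p : ℝ) ^ ν i = ∑ i, (g i : ℝ) := by
      rw [Finset.mul_sum]
      exact Finset.sum_congr rfl fun i _ => (hgκ i).symm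
    have h7 : κ * ((t + 1) * (p * u) - ∑ i, (p : ℝ) ^ ν i) =
        (t + 1) * (p * y) - ∑ i, (g i : ℝ) := by
      rw [mul_sub, h6, hy]
      ring
    have h8 : κ * (u * (1 + κ * u) * (p * u - 1)) = y * (1 + y) * (p * u - 1) := by
      rw [hy]
      ring
    rw [h7, h8] at h5
    refine NUM.caseA hp' hyp hyu ht3 ?_
    rw [hwy] at hsum2'
    linarith
  · -- cases B, C
    have hle : e * a ≤ k := by
      rw [← pow_mul] at h4
      exact (Nat.pow_le_pow_iff_right hp1).mp h4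
    obtain ⟨j, hj⟩ : ∃ j, k = e * a + j := ⟨k - e * a, by omega⟩
    have hje : j ≤ e := by
      have : e * (a + 1) = e * a + e := by ring
      omega
    have hea : 3 ≤ e * a := by
      calc 3 = 1 * 3 := rfl
        _ ≤ e * a := Nat.mul_le_mul he ha
    set q : ℝ := (p : ℝ) ^ j with hq
    have hKq : K = t * q := by rw [hK, hj, pow_add, ← htp]
    have hq1 : 1 ≤ q := one_le_pow₀ hp1'
    have hq0 : 0 < q := by linarith
    have hqu : q ≤ u := pow_le_pow_right₀ hp1' hje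
    have hκq : κ * q = u := by
      rw [hκ, hKq]
      field_simp
    -- the dichotomy for `p = 2`
    have hdich : p = 2 → (u = 2 ∧ 16 ≤ t) ∨ 4 ≤ u := by
      intro hp2'
      rcases Nat.lt_or_ge e 2 with h5 | h5
      · left
        have he1 : e = 1 := by omega
        have hu2 : u = 2 := by rw [hu, hp2', he1]; norm_num
        refine ⟨hu2, ?_⟩
        have ha4 : 4 ≤ a := by
          by_contra h6
          exact hexc ⟨hp2', he1, by omega⟩
        rw [ht, hu2]
        calc (16 : ℝ) = 2 ^ 4 := by norm_num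
          _ ≤ 2 ^ a := pow_le_pow_right₀ (by norm_num) ha4
      · right
        rw [hu, hp2']
        calc (4 : ℝ) = 2 ^ 2 := by norm_num
          _ ≤ ((2 : ℕ) : ℝ) ^ e := by
              push_cast
              exact pow_le_pow_right₀ (by norm_num) h5
    by_cases hcase : j = 0 ∧ p = 2
    · -- case B
      obtain ⟨hj0, hp2'⟩ := hcase
      have hq1' : q = 1 := by rw [hq, hj0, pow_zero]
      have hp2r : (p : ℝ) = 2 := by rw [hp2']; norm_num
      have hκu : κ = u := by rw [hq1', mul_one] at hκq; exact hκq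
      have hst := NUM.star hp2 ν g κ hκ0 hgκ 2 (by omega) (h3 _ (by omega) (by omega)) (by
        rw [hκu, hp2r]
        linarith)
      rw [hcard, hκu, hp2r] at hst
      rw [hp2r] at hsum1
      norm_num at hst
      rw [hKq, hq1', mul_one] at hsum1
      rcases hdich hp2' with ⟨hu2, ht16⟩ | hu4
      · rw [hu2] at hst
        linarith
      · have h5 : 16 * u ≤ u ^ 3 := by nlinarith [sq_nonneg u]
        linarith
    · -- case C
      have hP : (p : ℝ) ^ (j + 1) = p * q := by rw [pow_succ', hq]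
      have hst := NUM.star hp2 ν g κ hκ0 hgκ (j + 1) (by omega) (h3 _ (by omega) (by omega)) (by
        rw [hP, mul_left_comm, hκq]
        exact hpu4)
      rw [Nat.add_sub_cancel, hcard, hP, ← hq, hκq] at hst
      have hmain : (t + 1) * (p * q) - (t * q + t) ≤ q * (1 + u) * (p * q - 1) := by
        rw [hKq] at hsum1
        linarith
      rcases Nat.lt_or_ge 2 p with h5 | h5
      · have hp3 : (3 : ℝ) ≤ p := by exact_mod_cast h5
        exact NUM.caseC1 hp3 hq1 hqu (by linarith) ht3 hmain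
      · have hp2' : p = 2 := by omega
        have hp2r : (p : ℝ) = 2 := by rw [hp2']; norm_num
        have hj1 : 1 ≤ j := by
          by_contra h6
          exact hcase ⟨by omega, hp2'⟩
        have hq2 : 2 ≤ q := by
          calc (2 : ℝ) = (p : ℝ) ^ 1 := by rw [hp2r, pow_one]
            _ ≤ (p : ℝ) ^ j := pow_le_pow_right₀ hp1' hj1
        rw [hp2r] at hmain
        rcases hdich hp2' with ⟨hu2, ht16⟩ | hu4
        · have hq2' : q = 2 := le_antisymm (by linarith) hq2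
          rw [hu2, hq2'] at hmain
          linarith
        · exact NUM.caseC2 hq2 hqu hu4 ht3 hmain

end Pool.Agent.Helper90.ST
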